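import Mathlib
import Pool.Agent.FB.U6.Defs
import Pool.Agent.FB.W8.St

/-!
# FB/Z1: closed 4-braids with long syllables, without a condition on the turns: statements of the modules

THEOREM.  There is `N₀` such that for `N > N₀`: if all syllables of `β = ∏ σ₂^b_i σ₁^a_i σ₃^c_i` have length
at least `N` (and not all three of `σ₁^a σ₃^(-a)`, `(+ +)`, `(- -)` occur), then `f ≠ 1`.

PROOF.  `FourBraids5` proves this unless (i) `σ₁` or `σ₃` does not occur, or (ii) the word is, up to rotation,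
`X Y`, `X = s :: P` in `σ₁, σ₂`, `Y = t :: R` in `σ₂, σ₃`, and `|b + b'| < N`, `b`, `b'` the exponents of
the first syllables `σ₂^b`, `σ₂^b'` of `X` and `Y`.

If `f = 1`, then `‖EE‖² = (1 - q)² / q * q ^ (-e)` for all real `q > 0` (`One`), `e` the sum of the exponents.
(i) `EE = Q (Q - 2 + tr T2)`, so `‖EE‖ / |1 - q| → 0` for `q → 1`: module `E`.
(ii) `(Q - 1) EE = Q (F F' + (Q - 1) ζ G G')`, `ζ = q ^ (b + b')`, `F`, `G` belong to `X`, `F'`, `G'` to `Y`: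
module `Fac`.
 - `b + b' ≠ 0`: at `q = exp (± 1 / N)` `G`, `G'` are large and `F / G = -1 + O(Q)`, so
   `F F' + (Q - 1) ζ G G' = G G' (1 - ζ + O(Q))`, and `|1 - ζ| ≥ 1 / (2 N)`: modules `Sc`, `Est`, `D`.
 - `b + b' = 0`, `P = []`: `EE = (Q - 1 + x) (Q - 2 + tr Y)`, `x = q ^ a`; for `q → 1` `‖EE‖ / |1 - q|` tends to
   `|a|` times an integer, so it is not `1`: modules `Lim`, `C`.
 - `b + b' = 0`, `P = P' ++ [p]`, `R = R' ++ [r]`: the word has the same `EE` as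
   `P' ++ (p.1, t.2.1, p.2.2) :: R' ++ [(s.1, r.2.1, r.2.2)]` with two double blocks; this word is in `FourBraids4`,
   with an abstract number instead of the sum of the coefficients: modules `Old`, `B`.
-/

set_option autoImplicit false

open Matrix LaurentPolynomial Pool.RU Pool.Agent.FB.U5

namespace Pool.Agent.FB.Z1

/-! ### what `f = 1` says -/

/-- the sum of all exponents is `e`: `‖EE‖² = (1 - q)² / q * q ^ (-e)` for all real `q > 0`, `q ≠ 1` -/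
def One (β : List (ℤ × ℤ × ℤ)) : Prop := ∀ q : ℝ, 0 < q → q ≠ 1 →
  ‖U5.EE (((2 - q - 1 / q : ℝ)) : ℂ) (β.map (wts (q : ℂ)))‖ ^ 2 = (1 - q) ^ 2 / q * q ^ (-W8.tot β)

/-- **Module KEYQ** (`W8.KEY_q`, `W8.LNK_isKnot`, `W8.thm_Wr`) -/
def St_KeyQ : Prop := ∀ (β : List (ℤ × ℤ × ℤ)) (o : Tip 3 (0 + (word β).length) → Bool),
  (closure β).IsOrientation o → (closure β).normalized o = 1 → One β

/-! ### the exact formula for `X Y` -/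

/-- the matrix of a word in `σ₁, σ₂` (or in `σ₂, σ₃`) without its first syllable `σ₂^b` -/
noncomputable def XX (Q : ℂ) (s : ℂ × ℂ × ℂ) (P : List (ℂ × ℂ × ℂ)) : Matrix (Fin 2) (Fin 2) ℂ :=
  U5.T2 Q (s.1, s.2.1, 1) * (P.map (U5.T2 Q)).prod

/-- `G` -/
noncomputable def GG (Q : ℂ) (M : Matrix (Fin 2) (Fin 2) ℂ) : ℂ :=
  (M 0 0 + M 0 1 + (Q - 1) * (M 1 0 + M 1 1)) / Q

/-- `F` -/
noncomputable def FF (Q : ℂ) (M : Matrix (Fin 2) (Fin 2) ℂ) : ℂ := Q - 2 + M.trace - GG Q M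

/-- **Module FAC** (the matrices `A2`, `A3`, `B3`, `Z2`, `Z3` of `U6/MUT.lean`; the identity
`(Q - 1) EE = Q (F F' + (Q - 1) ζ G G')` is polynomial in `a, b, c, d, a', b', c', d', w, x`) -/
def St_Fac : Prop := (∀ (Q : ℂ) (s t : ℂ × ℂ × ℂ) (P R : List (ℂ × ℂ × ℂ)), Q ≠ 0 →
    (∀ u ∈ s :: P, u.2.1 = 1) → (∀ u ∈ t :: R, u.1 = 1) →
    (Q - 1) * U5.EE Q (s :: P ++ t :: R) =
      Q * (FF Q (XX Q s P) * FF Q (XX Q t R) +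
        (Q - 1) * (s.2.2 * t.2.2) * (GG Q (XX Q s P) * GG Q (XX Q t R)))) ∧
  ∀ (Q : ℂ) (L : List (ℂ × ℂ × ℂ)), Q ≠ 0 → ((∀ u ∈ L, u.2.1 = 1) ∨ ∀ u ∈ L, u.1 = 1) →
    U5.EE Q L = Q * (Q - 2 + (L.map (U5.T2 Q)).prod.trace)

/-! ### the scaled form -/

/-- `σ₂^b` -/
noncomputable def Sg (l B : ℂ) : Matrix (Fin 2) (Fin 2) ℂ := !![1 + l * B, -B; 0, 1]

/-- `σ₁^a` -/
noncomputable def Rg (l A : ℂ) : Matrix (Fin 2) (Fin 2) ℂ := !![1, 0; A, 1 + l * A]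

/-- the scaled word; the pairs are `(A, B)` -/
noncomputable def XS (l A : ℂ) (L : List (ℂ × ℂ)) : Matrix (Fin 2) (Fin 2) ℂ :=
  Rg l A * (L.map fun p => Sg l p.2 * Rg l p.1).prod

/-- **Module SC**: `x = 1 + l A`, `z = 1 + l B`, `Q = -l²` -/
def St_Sc : Prop := ∀ (l A : ℂ) (L : List (ℂ × ℂ)), l ≠ 0 → ∀ (s : ℂ × ℂ × ℂ) (P : List (ℂ × ℂ × ℂ)),
  s.1 * s.2.1 = 1 + l * A → P.map (fun t => (t.1 * t.2.1, t.2.2)) =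
    L.map (fun p => (1 + l * p.1, 1 + l * p.2)) →
  (XX (-l ^ 2) s P).trace = (XS l A L).trace ∧
    GG (-l ^ 2) (XX (-l ^ 2) s P) = XS l A L 0 0 - XS l A L 1 0 / l

/-- **Module EST** -/
def St_Est2 : Prop := ∀ (M : ℝ) (l A : ℂ) (L : List (ℂ × ℂ)), 100 ≤ M → l ≠ 0 → M * ‖l‖ ≤ 2 → M ≤ ‖A‖ →
  (∀ p ∈ L, M ≤ ‖p.1‖ ∧ M ≤ ‖p.2‖) →
  M ≤ 4 * ‖l * XS l A L 0 0 - XS l A L 1 0‖ ∧
    ‖-l ^ 2 - 2 + (XS l A L).trace‖ * M ≤ 100 * ‖l * XS l A L 0 0 - XS l A L 1 0‖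

/-! ### the cases -/

/-- a word in `σ₁, σ₂`, all syllables long except the first `σ₂^b` -/
def LongX (N : ℤ) (s : ℤ × ℤ × ℤ) (P : List (ℤ × ℤ × ℤ)) : Prop :=
  (N ≤ |s.1| ∧ s.2.1 = 0) ∧ ∀ u ∈ P, N ≤ |u.1| ∧ u.2.1 = 0 ∧ N ≤ |u.2.2|

/-- a word in `σ₂, σ₃`, all syllables long except the first `σ₂^b` -/
def LongY (N : ℤ) (s : ℤ × ℤ × ℤ) (P : List (ℤ × ℤ × ℤ)) : Prop :=
  (N ≤ |s.2.1| ∧ s.1 = 0) ∧ ∀ u ∈ P, N ≤ |u.2.1| ∧ u.1 = 0 ∧ N ≤ |u.2.2|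

/-- **Module D** -/
def St_D : Prop := ∃ N₁ : ℕ, ∀ N : ℕ, N₁ ≤ N → ∀ (s t : ℤ × ℤ × ℤ) (P R : List (ℤ × ℤ × ℤ)),
  LongX N s P → LongY N t R → s.2.2 + t.2.2 ≠ 0 → |s.2.2 + t.2.2| ≤ N → ¬ One (s :: P ++ t :: R)

/-- **Module LIM**: at `q = 1` the trace of a 3-braid is the trace of an integer matrix (`U7.thm_Sim`: the scaled
blocks `U7.M2 l (hat a, hat c, hat b)`, `l = lm ℓ → 0`, `hat n → n`) -/
def St_Lim : Prop := ∀ L : List (ℤ × ℤ × ℤ), ∃ n : ℤ, Filter.Tendsto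
  (fun q : ℝ => ((L.map (wts (q : ℂ))).map (U5.T2 (((2 - q - 1 / q : ℝ)) : ℂ))).prod.trace)
  (nhdsWithin (1 : ℝ) (Set.Ioi 1)) (nhds (n : ℂ))

/-- **Module C** -/
def St_C : Prop := ∀ (s t : ℤ × ℤ × ℤ) (R : List (ℤ × ℤ × ℤ)), s.2.2 + t.2.2 = 0 →
  (2 ≤ |s.1| → s.2.1 = 0 → (∀ u ∈ t :: R, u.1 = 0) → ¬ One (s :: t :: R)) ∧
  (2 ≤ |s.2.1| → s.1 = 0 → (∀ u ∈ t :: R, u.2.1 = 0) → ¬ One (s :: t :: R))

/-- **Module E** -/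
def St_E : Prop := ∀ L : List (ℤ × ℤ × ℤ), ((∀ u ∈ L, u.2.1 = 0) ∨ ∀ u ∈ L, u.1 = 0) → ¬ One L

/-! ### two double blocks -/

/-- the bound for the bracket, for one word and one number `S` -/
def BG (S : ℝ) (β : List (ℤ × ℤ × ℤ)) : Prop := ∀ ε : ℤ, (ε = 1 ∨ ε = -1) → ∀ (M : ℝ) (T : ℤ),
  (∀ u : ℂ, 16 ≤ ‖u‖ → ‖U5.EE (2 - u - u⁻¹) ((β.map (sc ε)).map (wts u))‖ ≤ M * ‖u‖ ^ T) →
  ∀ u : ℂ, 1 ≤ ‖u‖ → 2 - u - u⁻¹ ≠ 0 →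
    ‖U5.EE (2 - u - u⁻¹) ((β.map (sc ε)).map (wts u))‖ ≤ S * ‖u‖ ^ T * Real.sqrt ‖2 - u - u⁻¹‖

/-- all syllables have length at least `N` -/
def Long (N : ℤ) (β : List (ℤ × ℤ × ℤ)) : Prop :=
  ∀ t ∈ β, N ≤ |t.2.2| ∧ (t.1 = 0 ∨ N ≤ |t.1|) ∧ (t.2.1 = 0 ∨ N ≤ |t.2.1|) ∧ ¬ (t.1 = 0 ∧ t.2.1 = 0)

/-- **Module OLD**: `FourBraids4` for a word with a double block and an abstract number (`U6.core5` is already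
abstract; `U6.part2` has to be copied with `BG` instead of `U6.thm_SumGen`) -/
def St_Old : Prop := ∃ N₀ : ℕ, 0 < N₀ ∧ ∀ N : ℕ, N₀ ≤ N → ∀ β : List (ℤ × ℤ × ℤ), Long N β →
  (∃ t ∈ β, t.1 ≠ 0 ∧ t.2.1 ≠ 0) →
  ((∀ t ∈ β, ¬ (0 < t.1 ∧ 0 < t.2.1)) ∨ (∀ t ∈ β, ¬ (t.1 < 0 ∧ t.2.1 < 0)) ∨ ∀ t ∈ β, 0 ≤ t.1 * t.2.1) →
  ∀ S : ℝ, 0 ≤ S → BG S β → (N : ℝ) ^ (2 * β.length - 1) ≤ (N₀ : ℝ) ^ (2 * β.length - 1) * S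

/-- **Module B** -/
def St_B : Prop := ∃ N₁ : ℕ, ∀ N : ℕ, N₁ < N → ∀ (s t p r : ℤ × ℤ × ℤ) (P' R' : List (ℤ × ℤ × ℤ)),
  LongX N s (P' ++ [p]) → LongY N t (R' ++ [r]) → s.2.2 + t.2.2 = 0 →
  ¬ BG 1 (s :: (P' ++ [p]) ++ t :: (R' ++ [r]))

/-! ### the theorem -/

/-- **closed 4-braids with long syllables** -/
def St_FourBraids6 : Prop := ∃ N₀ : ℕ, 0 < N₀ ∧ ∀ N : ℕ, N₀ < N → ∀ β : List (ℤ × ℤ × ℤ), β ≠ [] →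
  Long N β →
  ((∀ t ∈ β, t.1 + t.2.1 ≠ 0) ∨ (∀ t ∈ β, ¬ (0 < t.1 ∧ 0 < t.2.1)) ∨
    ∀ t ∈ β, ¬ (t.1 < 0 ∧ t.2.1 < 0)) →
  ∀ o, (closure β).IsOrientation o → (closure β).normalized o ≠ 1

end Pool.Agent.FB.Z1
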