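import Pool.Agent.FB.Z1.St
import Pool.Agent.FB.U6.MUT

/-!
# FB/Z1/B: `b + b' = 0`, both words have at least two syllables `σ₂^b`
-/

set_option autoImplicit false

open Matrix LaurentPolynomial Pool.RU Pool.Agent.FB.U5

namespace Pool.Agent.FB.Z1

namespace ModB

lemma T3_merge (Q x y y' z : ℂ) (x' : ℂ) :
    U5.T3 Q (x, y, z) * U5.T3 Q (x', y', 1) = U5.T3 Q (x * x', y * y', z) := by
  unfold U5.T3
  simp only [sub_self, zero_div, zero_smul, add_zero, one_mul]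
  rw [Matrix.mul_assoc, Matrix.diagonal_mul_diagonal]
  congr 2
  funext i
  fin_cases i <;> simp

lemma T2_merge (Q x y y' z : ℂ) (x' : ℂ) :
    U5.T2 Q (x, y, z) * U5.T2 Q (x', y', 1) = U5.T2 Q (x * x', y * y', z) := by
  unfold U5.T2
  simp only [sub_self, zero_div, zero_smul, add_zero, one_mul]
  rw [Matrix.mul_assoc, Matrix.diagonal_mul_diagonal]
  congr 2
  funext i
  fin_cases i
  · simp
    ring
  · simp

/-- merging the syllables at the two turns -/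
lemma EE_merge (Q x y x1 y1 z1 x2 y2 z2 : ℂ) (P R : List (ℂ × ℂ × ℂ)) :
    U5.EE Q ((x, 1, 1) :: (P ++ [(x1, y1, z1)]) ++ (1, y, 1) :: (R ++ [(x2, y2, z2)])) =
      U5.EE Q (P ++ (x1, y1 * y, z1) :: R ++ [(x2 * x, y2, z2)]) := by
  unfold U5.EE
  have h3 : ((((x, 1, 1) :: (P ++ [(x1, y1, z1)]) ++ (1, y, 1) :: (R ++ [(x2, y2, z2)])).map
      (U5.T3 Q)).prod.trace) = ((P ++ (x1, y1 * y, z1) :: R ++ [(x2 * x, y2, z2)]).map
      (U5.T3 Q)).prod.trace := by
    simp only [List.map_append, List.map_cons, List.map_nil, List.prod_append, List.prod_cons,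
      List.prod_nil, mul_one, List.cons_append, Matrix.mul_assoc]
    rw [Matrix.trace_mul_comm (U5.T3 Q (x, 1, 1))]
    have e1 := T3_merge Q x1 y1 y z1 1
    have e2 := T3_merge Q x2 y2 1 z2 x
    rw [mul_one] at e1 e2
    rw [← e1, ← e2]
    simp only [Matrix.mul_assoc]
  have h2 : ((((x, 1, 1) :: (P ++ [(x1, y1, z1)]) ++ (1, y, 1) :: (R ++ [(x2, y2, z2)])).map
      (U5.T2 Q)).prod.trace) = ((P ++ (x1, y1 * y, z1) :: R ++ [(x2 * x, y2, z2)]).map
      (U5.T2 Q)).prod.trace := by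
    simp only [List.map_append, List.map_cons, List.map_nil, List.prod_append, List.prod_cons,
      List.prod_nil, mul_one, List.cons_append, Matrix.mul_assoc]
    rw [Matrix.trace_mul_comm (U5.T2 Q (x, 1, 1))]
    have e1 := T2_merge Q x1 y1 y z1 1
    have e2 := T2_merge Q x2 y2 1 z2 x
    rw [mul_one] at e1 e2
    rw [← e1, ← e2]
    simp only [Matrix.mul_assoc]
  rw [h3, h2]

/-- the word with two double blocks -/
def W0 (s t p r : ℤ × ℤ × ℤ) (P R : List (ℤ × ℤ × ℤ)) : List (ℤ × ℤ × ℤ) :=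
  P ++ (p.1, t.2.1, p.2.2) :: R ++ [(s.1, r.2.1, r.2.2)]

lemma EE_eq (ε : ℤ) (u Q : ℂ) (hu : u ≠ 0) (hQ : Q ≠ 0) (s t p r : ℤ × ℤ × ℤ)
    (P R : List (ℤ × ℤ × ℤ)) (hs : s.2.1 = 0) (hP : ∀ v ∈ P ++ [p], v.2.1 = 0) (ht : t.1 = 0)
    (hR : ∀ v ∈ R ++ [r], v.1 = 0) (hst : s.2.2 + t.2.2 = 0) :
    U5.EE Q (((s :: (P ++ [p]) ++ t :: (R ++ [r])).map (sc ε)).map (wts u)) =
      U5.EE Q (((W0 s t p r P R).map (sc ε)).map (wts u)) := by
  have h1 := U6.thm_Mut.1 Q (wts u (sc ε s)) (wts u (sc ε t)) (((P ++ [p]).map (sc ε)).map (wts u))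
    (((R ++ [r]).map (sc ε)).map (wts u)) 1 1 hQ ?_ ?_ ?_
  · have h2 : (((s :: (P ++ [p]) ++ t :: (R ++ [r])).map (sc ε)).map (wts u)) =
        wts u (sc ε s) :: ((P ++ [p]).map (sc ε)).map (wts u) ++
          wts u (sc ε t) :: ((R ++ [r]).map (sc ε)).map (wts u) := by
      simp
    rw [h2, ← h1]
    have hs1 : (wts u (sc ε s)).2.1 = 1 := by simp [wts, sc, hs]
    have ht1 : (wts u (sc ε t)).1 = 1 := by simp [wts, sc, ht]
    have hp0 : p.2.1 = 0 := hP p (by simp)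
    have hr0 : r.1 = 0 := hR r (by simp)
    rw [hs1, ht1]
    have h3 := EE_merge Q (wts u (sc ε s)).1 (wts u (sc ε t)).2.1 (wts u (sc ε p)).1
      (wts u (sc ε p)).2.1 (wts u (sc ε p)).2.2 (wts u (sc ε r)).1 (wts u (sc ε r)).2.1
      (wts u (sc ε r)).2.2 ((P.map (sc ε)).map (wts u)) ((R.map (sc ε)).map (wts u))
    have h4 : ((P ++ [p]).map (sc ε)).map (wts u) = (P.map (sc ε)).map (wts u) ++
        [((wts u (sc ε p)).1, (wts u (sc ε p)).2.1, (wts u (sc ε p)).2.2)] := by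
      simp
    have h5 : ((R ++ [r]).map (sc ε)).map (wts u) = (R.map (sc ε)).map (wts u) ++
        [((wts u (sc ε r)).1, (wts u (sc ε r)).2.1, (wts u (sc ε r)).2.2)] := by
      simp
    rw [h4, h5, h3]
    congr 1
    simp [W0, wts, sc, hp0, hr0]
  · intro v hv
    have hv' : v ∈ ((s :: (P ++ [p])).map (sc ε)).map (wts u) := by simpa using hv
    obtain ⟨w, hw, rfl⟩ := List.mem_map.1 hv'
    obtain ⟨w', hw', rfl⟩ := List.mem_map.1 hw
    have : w'.2.1 = 0 := by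
      rcases List.mem_cons.1 hw' with rfl | h
      · exact hs
      · exact hP _ h
    simp [wts, sc, this]
  · intro v hv
    have hv' : v ∈ ((t :: (R ++ [r])).map (sc ε)).map (wts u) := by simpa using hv
    obtain ⟨w, hw, rfl⟩ := List.mem_map.1 hv'
    obtain ⟨w', hw', rfl⟩ := List.mem_map.1 hw
    have : w'.1 = 0 := by
      rcases List.mem_cons.1 hw' with rfl | h
      · exact ht
      · exact hR _ h
    simp [wts, sc, this]
  · show (1 : ℂ) * 1 = u ^ (ε * s.2.2) * u ^ (ε * t.2.2)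
    rw [← zpow_add₀ hu, ← mul_add, hst, mul_zero, zpow_zero, mul_one]

end ModB

theorem thm_B : St_Old → St_B := by
  rintro ⟨N₀, hN₀, h⟩
  refine ⟨N₀, fun N hN s t p r P' R' hX hY hst hBG => ?_⟩
  have hs := hX.1
  have hP := hX.2
  have ht := hY.1
  have hR := hY.2
  have hp := hP p (by simp)
  have hr := hR r (by simp)
  have hNpos : (0 : ℤ) < (N : ℤ) := by
    have : 0 < N := lt_trans hN₀ hN
    exact_mod_cast this
  have hne : ∀ x : ℤ, (N : ℤ) ≤ |x| → x ≠ 0 := by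
    intro x hx hx0
    rw [hx0, abs_zero] at hx
    omega
  have key := h N hN.le (ModB.W0 s t p r P' R') ?_ ?_ ?_ 1 zero_le_one ?_
  · rw [mul_one] at key
    have hlen : 2 * (ModB.W0 s t p r P' R').length - 1 ≠ 0 := by
      simp [ModB.W0]
      omega
    have h1 : (N₀ : ℝ) ^ (2 * (ModB.W0 s t p r P' R').length - 1) <
        (N : ℝ) ^ (2 * (ModB.W0 s t p r P' R').length - 1) :=
      pow_lt_pow_left₀ (by exact_mod_cast hN) (Nat.cast_nonneg _) hlen
    linarith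
  · intro u hu
    unfold ModB.W0 at hu
    rw [List.append_assoc, List.cons_append] at hu
    rcases List.mem_append.1 hu with h1 | h1
    · have h2 := hP u (List.mem_append_left _ h1)
      exact ⟨h2.2.2, Or.inr h2.1, Or.inl h2.2.1, fun h3 => hne _ h2.1 h3.1⟩
    · rcases List.mem_cons.1 h1 with h2 | h2
      · rw [h2]
        exact ⟨hp.2.2, Or.inr hp.1, Or.inr ht.1, fun h3 => hne _ hp.1 h3.1⟩
      · rcases List.mem_append.1 h2 with h3 | h3
        · have h4 := hR u (List.mem_append_left _ h3)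
          exact ⟨h4.2.2, Or.inl h4.2.1, Or.inr h4.1, fun h5 => hne _ h4.1 h5.2⟩
        · rw [List.mem_singleton] at h3
          rw [h3]
          exact ⟨hr.2.2, Or.inr hs.1, Or.inr hr.1, fun h5 => hne _ hs.1 h5.1⟩
  · exact ⟨(p.1, t.2.1, p.2.2), by simp [ModB.W0], hne _ hp.1, hne _ ht.1⟩
  · have hmem : ∀ C : ℤ × ℤ × ℤ → Prop, (∀ u, u.1 * u.2.1 = 0 → C u) → C (p.1, t.2.1, p.2.2) →
        C (s.1, r.2.1, r.2.2) → ∀ u ∈ ModB.W0 s t p r P' R', C u := by
      intro C h0 h1 h2 u hu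
      unfold ModB.W0 at hu
      rw [List.append_assoc, List.cons_append] at hu
      rcases List.mem_append.1 hu with h3 | h3
      · refine h0 u ?_
        rw [(hP u (List.mem_append_left _ h3)).2.1, mul_zero]
      · rcases List.mem_cons.1 h3 with h4 | h4
        · rw [h4]
          exact h1
        · rcases List.mem_append.1 h4 with h5 | h5
          · refine h0 u ?_
            rw [(hR u (List.mem_append_left _ h5)).2.1, zero_mul]
          · rw [List.mem_singleton] at h5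
            rw [h5]
            exact h2
    have hz1 : ∀ u : ℤ × ℤ × ℤ, u.1 * u.2.1 = 0 → ¬ (0 < u.1 ∧ 0 < u.2.1) := by
      rintro u h0 ⟨h1, h2⟩
      exact (mul_pos h1 h2).ne' h0
    have hz2 : ∀ u : ℤ × ℤ × ℤ, u.1 * u.2.1 = 0 → ¬ (u.1 < 0 ∧ u.2.1 < 0) := by
      rintro u h0 ⟨h1, h2⟩
      exact (mul_pos_of_neg_of_neg h1 h2).ne' h0
    by_cases h1 : 0 < p.1 ∧ 0 < t.2.1
    · by_cases h2 : s.1 < 0 ∧ r.2.1 < 0
      · right; right
        refine hmem (fun u => 0 ≤ u.1 * u.2.1) (fun u h0 => h0.ge) (mul_pos h1.1 h1.2).le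
          (mul_pos_of_neg_of_neg h2.1 h2.2).le
      · right; left
        refine hmem (fun u => ¬ (u.1 < 0 ∧ u.2.1 < 0)) hz2 ?_ h2
        rintro ⟨h3, -⟩
        exact absurd h1.1 (not_lt.2 h3.le)
    · by_cases h2 : 0 < s.1 ∧ 0 < r.2.1
      · by_cases h3 : p.1 < 0 ∧ t.2.1 < 0
        · right; right
          exact hmem (fun u => 0 ≤ u.1 * u.2.1) (fun u h0 => h0.ge)
            (mul_pos_of_neg_of_neg h3.1 h3.2).le (mul_pos h2.1 h2.2).le
        · right; left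
          refine hmem (fun u => ¬ (u.1 < 0 ∧ u.2.1 < 0)) hz2 h3 ?_
          rintro ⟨h4, -⟩
          exact absurd h2.1 (not_lt.2 h4.le)
      · left
        exact hmem (fun u => ¬ (0 < u.1 ∧ 0 < u.2.1)) hz1 h1 h2
  · intro ε hε M T hM u hu hQ
    have hP0 : ∀ v ∈ P' ++ [p], v.2.1 = 0 := fun v hv => (hP v hv).2.1
    have hR0 : ∀ v ∈ R' ++ [r], v.1 = 0 := fun v hv => (hR v hv).2.1
    have hu0 : ∀ w : ℂ, 1 ≤ ‖w‖ → w ≠ 0 := by
      intro w hw hw0
      rw [hw0, norm_zero] at hw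
      linarith
    have hE : ∀ w : ℂ, 1 ≤ ‖w‖ → 2 - w - w⁻¹ ≠ 0 →
        U5.EE (2 - w - w⁻¹) (((s :: (P' ++ [p]) ++ t :: (R' ++ [r])).map (sc ε)).map (wts w)) =
          U5.EE (2 - w - w⁻¹) (((ModB.W0 s t p r P' R').map (sc ε)).map (wts w)) :=
      fun w hw hQw => ModB.EE_eq ε w _ (hu0 w hw) hQw s t p r P' R' hs.2 hP0 ht.2 hR0 hst
    have hQ16 : ∀ w : ℂ, 16 ≤ ‖w‖ → 2 - w - w⁻¹ ≠ 0 := by
      intro w hw h0
      have h1 : w = 2 - w⁻¹ := by linear_combination -h0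
      have h2 : ‖w‖ ≤ 2 + ‖w⁻¹‖ := by
        calc ‖w‖ = ‖2 - w⁻¹‖ := by rw [← h1]
          _ ≤ ‖(2 : ℂ)‖ + ‖w⁻¹‖ := norm_sub_le _ _
          _ = 2 + ‖w⁻¹‖ := by simp
      have h3 : ‖w⁻¹‖ ≤ 1 := by
        rw [norm_inv]
        exact inv_le_one_of_one_le₀ (by linarith)
      linarith
    rw [← hE u hu hQ]
    refine hBG ε hε M T (fun w hw => ?_) u hu hQ
    rw [hE w (by linarith) (hQ16 w hw)]
    exact hM w hw

end Pool.Agent.FB.Z1
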