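import Pool.Agent.FB.Z1.St

/-!
# FB/Z1/C: `b + b' = 0` and `P = []`
-/

set_option autoImplicit false

open Matrix LaurentPolynomial Pool.RU Pool.Agent.FB.U5

namespace Pool.Agent.FB.Z1

namespace ModC

open Filter Topology

/-- the block of one syllable -/
lemma XX_nil (Q : ℂ) (s : ℂ × ℂ × ℂ) : XX Q s [] = Matrix.diagonal ![s.1 * s.2.1, 1] := by
  unfold XX U5.T2
  simp

lemma GG_nil (Q : ℂ) (s : ℂ × ℂ × ℂ) : GG Q (XX Q s []) = (Q - 1 + s.1 * s.2.1) / Q := by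
  rw [XX_nil]
  unfold GG
  simp
  ring

lemma FF_nil (Q : ℂ) (s : ℂ × ℂ × ℂ) (hQ : Q ≠ 0) :
    FF Q (XX Q s []) = (Q - 1) * GG Q (XX Q s []) := by
  unfold FF
  rw [GG_nil, XX_nil]
  simp
  field_simp
  ring

lemma algX {Q x T g : ℂ} (hQ : Q ≠ 0) : (Q - 1) * ((Q - 1 + x) * (Q - 2 + T)) =
    Q * ((Q - 1) * ((Q - 1 + x) / Q) * (Q - 2 + T - g) + (Q - 1) * 1 * ((Q - 1 + x) / Q * g)) := by
  field_simp
  ring

lemma algY {Q x T g : ℂ} (hQ : Q ≠ 0) : (Q - 1) * ((Q - 1 + x) * (Q - 2 + T)) =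
    Q * ((Q - 2 + T - g) * ((Q - 1) * ((Q - 1 + x) / Q)) + (Q - 1) * 1 * (g * ((Q - 1 + x) / Q))) := by
  field_simp
  ring

/-- the rotated word has the same `EE` -/
lemma EE_rot (Q : ℂ) (s : ℂ × ℂ × ℂ) (L : List (ℂ × ℂ × ℂ)) : U5.EE Q (s :: L) = U5.EE Q (L ++ [s]) := by
  unfold U5.EE
  simp only [List.map_cons, List.prod_cons, List.map_append, List.prod_append, List.map_nil,
    List.prod_nil, mul_one]
  rw [Matrix.trace_mul_comm (U5.T3 Q s), Matrix.trace_mul_comm (U5.T2 Q s)]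

/-- the limit -/
lemma lim_phi (a : ℤ) : Tendsto (fun q : ℝ => (q - 1)⁻¹ * (2 - q - 1 / q - 1 + q ^ a))
    (𝓝[>] (1 : ℝ)) (𝓝 (a : ℝ)) := by
  have h1 : HasDerivAt (fun q : ℝ => 2 - q - 1 / q - 1 + q ^ a) (a : ℝ) 1 := by
    have h2 : HasDerivAt (fun q : ℝ => q ^ a) ((a : ℝ) * 1 ^ (a - 1)) 1 :=
      hasDerivAt_zpow a 1 (Or.inl one_ne_zero)
    have h3 : HasDerivAt (fun q : ℝ => q⁻¹) (-(1 ^ 2)⁻¹) (1 : ℝ) := hasDerivAt_inv one_ne_zero
    have h4 := (((hasDerivAt_const (1 : ℝ) (2 : ℝ)).sub (hasDerivAt_id (1 : ℝ))).sub h3).sub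
      (hasDerivAt_const (1 : ℝ) (1 : ℝ)) |>.add h2
    have h5 : (0 : ℝ) - 1 - -(1 ^ 2)⁻¹ - 0 + (a : ℝ) * 1 ^ (a - 1) = a := by
      rw [_root_.one_zpow]
      norm_num
    rw [h5] at h4
    refine h4.congr_of_eventuallyEq (Eventually.of_forall fun q => ?_)
    simp [one_div]
  have h6 := (hasDerivAt_iff_tendsto_slope.1 h1).mono_left (nhdsWithin_mono (1 : ℝ)
    (fun x (hx : x ∈ Set.Ioi (1 : ℝ)) => ne_of_gt hx : Set.Ioi (1 : ℝ) ⊆ {1}ᶜ))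
  refine h6.congr fun q => ?_
  rw [slope_def_module]
  simp
  ring_nf
  simp

lemma core (hLim : St_Lim) (a e : ℤ) (L : List (ℤ × ℤ × ℤ)) (ha : 2 ≤ |a|)
    (h : ∀ q : ℝ, 0 < q → q ≠ 1 →
      ‖((((2 - q - 1 / q : ℝ)) : ℂ) - 1 + (q : ℂ) ^ a) *
        ((((2 - q - 1 / q : ℝ)) : ℂ) - 2 +
          ((L.map (wts (q : ℂ))).map (U5.T2 (((2 - q - 1 / q : ℝ)) : ℂ))).prod.trace)‖ ^ 2 =
        (1 - q) ^ 2 / q * q ^ (-e)) : False := by
  obtain ⟨n, hn⟩ := hLim L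
  have hQ : Tendsto (fun q : ℝ => ((((2 - q - 1 / q : ℝ)) : ℂ))) (𝓝[>] (1 : ℝ)) (𝓝 0) := by
    have h1 : ContinuousAt (fun q : ℝ => (2 - q - 1 / q : ℝ)) 1 := by
      have : ContinuousAt (fun q : ℝ => 1 / q) 1 := continuousAt_const.div continuousAt_id one_ne_zero
      exact (continuousAt_const.sub continuousAt_id).sub this
    have h2 : Tendsto (fun q : ℝ => (2 - q - 1 / q : ℝ)) (𝓝[>] (1 : ℝ)) (𝓝 0) := by
      have h3 := h1.tendsto
      have h5 : (2 - 1 - 1 / 1 : ℝ) = 0 := by norm_num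
      rw [h5] at h3
      exact h3.mono_left nhdsWithin_le_nhds
    have h4 := (Complex.continuous_ofReal.tendsto (0 : ℝ)).comp h2
    rw [Complex.ofReal_zero] at h4
    exact h4
  have hA : Tendsto (fun q : ℝ => ‖(q - 1)⁻¹ * (2 - q - 1 / q - 1 + q ^ a)‖ ^ 2 *
      ‖((((2 - q - 1 / q : ℝ)) : ℂ) - 2 +
          ((L.map (wts (q : ℂ))).map (U5.T2 (((2 - q - 1 / q : ℝ)) : ℂ))).prod.trace)‖ ^ 2)
      (𝓝[>] (1 : ℝ)) (𝓝 (‖(a : ℝ)‖ ^ 2 * ‖(0 : ℂ) - 2 + (n : ℂ)‖ ^ 2)) :=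
    ((lim_phi a).norm.pow 2).mul (((hQ.sub_const 2).add hn).norm.pow 2)
  have hB : Tendsto (fun q : ℝ => q⁻¹ * q ^ (-e)) (𝓝[>] (1 : ℝ)) (𝓝 1) := by
    have h1 : ContinuousAt (fun q : ℝ => q⁻¹ * q ^ (-e)) 1 :=
      (continuousAt_inv₀ one_ne_zero).mul (continuousAt_zpow₀ 1 (-e) (Or.inl one_ne_zero))
    have h3 := h1.tendsto
    have h5 : (1 : ℝ)⁻¹ * 1 ^ (-e) = 1 := by
      rw [_root_.one_zpow, inv_one, mul_one]
    rw [h5] at h3
    exact h3.mono_left nhdsWithin_le_nhds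
  have hC : (fun q : ℝ => ‖(q - 1)⁻¹ * (2 - q - 1 / q - 1 + q ^ a)‖ ^ 2 *
      ‖((((2 - q - 1 / q : ℝ)) : ℂ) - 2 +
          ((L.map (wts (q : ℂ))).map (U5.T2 (((2 - q - 1 / q : ℝ)) : ℂ))).prod.trace)‖ ^ 2)
      =ᶠ[𝓝[>] (1 : ℝ)] fun q : ℝ => q⁻¹ * q ^ (-e) := by
    filter_upwards [self_mem_nhdsWithin] with q hq
    have hq1 : (1 : ℝ) < q := hq
    have hq0 : (0 : ℝ) < q := by linarith
    have hne : q - 1 ≠ 0 := by linarith
    have h1 := h q hq0 (ne_of_gt hq1)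
    rw [norm_mul, mul_pow] at h1
    have h2 : ‖((((2 - q - 1 / q : ℝ)) : ℂ) - 1 + (q : ℂ) ^ a)‖ = ‖(2 - q - 1 / q - 1 + q ^ a : ℝ)‖ := by
      rw [← Complex.norm_real]
      congr 1
      push_cast
      ring
    rw [h2] at h1
    rw [norm_mul, mul_pow, mul_assoc, h1]
    rw [norm_inv, Real.norm_eq_abs, inv_pow, sq_abs]
    field_simp
    ring
  have hD := tendsto_nhds_unique (hA.congr' hC) hB
  have hE : ((a * (n - 2) : ℤ) : ℝ) ^ 2 = 1 := by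
    have h1 : ‖(0 : ℂ) - 2 + (n : ℂ)‖ = |((n - 2 : ℤ) : ℝ)| := by
      have : (0 : ℂ) - 2 + (n : ℂ) = (((n - 2 : ℤ) : ℝ) : ℂ) := by
        push_cast
        ring
      rw [this, Complex.norm_real, Real.norm_eq_abs]
    rw [h1, Real.norm_eq_abs, sq_abs, sq_abs] at hD
    push_cast at hD ⊢
    rw [mul_pow]
    exact hD
  have hF : (a * (n - 2)) ^ 2 = 1 := by exact_mod_cast hE
  have hG : IsUnit (a * (n - 2)) := by
    refine IsUnit.of_mul_eq_one (a * (n - 2)) ?_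
    rw [← sq]
    exact hF
  have hH : IsUnit a := isUnit_of_mul_isUnit_left hG
  have hI : |a| = 1 := by
    rcases Int.isUnit_iff.1 hH with h1 | h1 <;> rw [h1] <;> rfl
  omega

end ModC

theorem thm_C : St_Fac → St_Lim → St_C := by
  intro hFac hLim s t R hst
  have hQ0 : ∀ q : ℝ, 0 < q → q ≠ 1 → ((((2 - q - 1 / q : ℝ)) : ℂ)) ≠ 0 ∧
      ((((2 - q - 1 / q : ℝ)) : ℂ)) - 1 ≠ 0 := by
    intro q hq hq1
    have h1 : (2 - q - 1 / q : ℝ) = -((1 - q) ^ 2 / q) := by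
      field_simp
      ring
    have h2 : 0 < (1 - q) ^ 2 / q := by
      refine div_pos ?_ hq
      exact pow_two_pos_of_ne_zero (sub_ne_zero.2 (Ne.symm hq1))
    constructor
    · intro h
      have h3 : (2 - q - 1 / q : ℝ) = 0 := by exact_mod_cast h
      linarith
    · intro h
      have h3 : (2 - q - 1 / q : ℝ) - 1 = 0 := by exact_mod_cast h
      linarith
  have hz : ∀ q : ℝ, 0 < q → (q : ℂ) ^ s.2.2 * (q : ℂ) ^ t.2.2 = 1 := by
    intro q hq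
    rw [← zpow_add₀ (by exact_mod_cast hq.ne'), hst, zpow_zero]
  constructor
  · intro ha hs ht hOne
    refine ModC.core hLim s.1 (W8.tot (s :: t :: R)) ((t.1, t.2.1, 0) :: R) ha fun q hq hq1 => ?_
    obtain ⟨h0, h1⟩ := hQ0 q hq hq1
    have h2 := hOne q hq hq1
    rw [← h2]
    congr 2
    have h3 := hFac.1 (((2 - q - 1 / q : ℝ)) : ℂ) (wts (q : ℂ) s) (wts (q : ℂ) t) []
      (R.map (wts (q : ℂ))) h0 ?_ ?_
    · refine mul_left_cancel₀ h1 ?_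
      have h4 : U5.EE (((2 - q - 1 / q : ℝ)) : ℂ) ((s :: t :: R).map (wts (q : ℂ))) =
        U5.EE (((2 - q - 1 / q : ℝ)) : ℂ) (wts (q : ℂ) s :: [] ++ wts (q : ℂ) t :: R.map (wts (q : ℂ))) := rfl
      rw [h4, h3, ModC.FF_nil _ _ h0, ModC.GG_nil]
      have h5 : (wts (q : ℂ) s).2.2 * (wts (q : ℂ) t).2.2 = 1 := hz q hq
      have h6 : (wts (q : ℂ) s).1 * (wts (q : ℂ) s).2.1 = (q : ℂ) ^ s.1 := by
        show (q : ℂ) ^ s.1 * (q : ℂ) ^ s.2.1 = _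
        rw [hs, zpow_zero, mul_one]
      rw [h5, h6]
      unfold FF
      have h7 : ((((t.1, t.2.1, 0) :: R).map (wts (q : ℂ))).map
          (U5.T2 (((2 - q - 1 / q : ℝ)) : ℂ))).prod.trace =
          (XX (((2 - q - 1 / q : ℝ)) : ℂ) (wts (q : ℂ) t) (R.map (wts (q : ℂ)))).trace := by
        unfold XX
        simp [wts]
      rw [h7]
      exact ModC.algX h0
    · intro u hu
      rw [List.mem_singleton] at hu
      rw [hu]
      show (q : ℂ) ^ s.2.1 = 1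
      rw [hs, zpow_zero]
    · intro u hu
      have h8 : u ∈ (t :: R).map (wts (q : ℂ)) := hu
      obtain ⟨v, hv, rfl⟩ := List.mem_map.1 h8
      show (q : ℂ) ^ v.1 = 1
      rw [ht v hv, zpow_zero]
  · intro ha hs ht hOne
    refine ModC.core hLim s.2.1 (W8.tot (s :: t :: R)) ((t.1, t.2.1, 0) :: R) ha fun q hq hq1 => ?_
    obtain ⟨h0, h1⟩ := hQ0 q hq hq1
    have h2 := hOne q hq hq1
    rw [← h2]
    congr 2
    have h3 := hFac.1 (((2 - q - 1 / q : ℝ)) : ℂ) (wts (q : ℂ) t) (wts (q : ℂ) s)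
      (R.map (wts (q : ℂ))) [] h0 ?_ ?_
    · refine mul_left_cancel₀ h1 ?_
      have h4 : U5.EE (((2 - q - 1 / q : ℝ)) : ℂ) ((s :: t :: R).map (wts (q : ℂ))) =
        U5.EE (((2 - q - 1 / q : ℝ)) : ℂ) (wts (q : ℂ) t :: R.map (wts (q : ℂ)) ++ wts (q : ℂ) s :: []) :=
        ModC.EE_rot _ _ _
      rw [h4, h3, ModC.FF_nil _ _ h0, ModC.GG_nil]
      have h5 : (wts (q : ℂ) t).2.2 * (wts (q : ℂ) s).2.2 = 1 := by
        rw [mul_comm]
        exact hz q hq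
      have h6 : (wts (q : ℂ) s).1 * (wts (q : ℂ) s).2.1 = (q : ℂ) ^ s.2.1 := by
        show (q : ℂ) ^ s.1 * (q : ℂ) ^ s.2.1 = _
        rw [hs, zpow_zero, one_mul]
      rw [h5, h6]
      unfold FF
      have h7 : ((((t.1, t.2.1, 0) :: R).map (wts (q : ℂ))).map
          (U5.T2 (((2 - q - 1 / q : ℝ)) : ℂ))).prod.trace =
          (XX (((2 - q - 1 / q : ℝ)) : ℂ) (wts (q : ℂ) t) (R.map (wts (q : ℂ)))).trace := by
        unfold XX
        simp [wts]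
      rw [h7]
      exact ModC.algY h0
    · intro u hu
      have h8 : u ∈ (t :: R).map (wts (q : ℂ)) := hu
      obtain ⟨v, hv, rfl⟩ := List.mem_map.1 h8
      show (q : ℂ) ^ v.2.1 = 1
      rw [ht v hv, zpow_zero]
    · intro u hu
      rw [List.mem_singleton] at hu
      rw [hu]
      show (q : ℂ) ^ s.1 = 1
      rw [hs, zpow_zero]

end Pool.Agent.FB.Z1
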