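import Pool.Agent.FB.Z1.St

/-!
# FB/Z1, module D: `b + b' ≠ 0` (helper15)
-/

set_option autoImplicit false

open Matrix LaurentPolynomial Pool.RU Pool.Agent.FB.U5

namespace Pool.Agent.FB.Z1

/-- one of the two words -/
theorem D_side (hSc : St_Sc) (hE : St_Est2) (M : ℝ) (l : ℂ) (hM : 100 ≤ M) (hl : l ≠ 0)
    (hMl : M * ‖l‖ ≤ 2) (s : ℂ × ℂ × ℂ) (P : List (ℂ × ℂ × ℂ)) (hs : M ≤ ‖(s.1 * s.2.1 - 1) / l‖)
    (hP : ∀ u ∈ P, M ≤ ‖(u.1 * u.2.1 - 1) / l‖ ∧ M ≤ ‖(u.2.2 - 1) / l‖) :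
    M ≤ 4 * ‖l * GG (-l ^ 2) (XX (-l ^ 2) s P)‖ ∧
      ‖-l ^ 2 - 2 + (XX (-l ^ 2) s P).trace‖ * M ≤ 100 * ‖l * GG (-l ^ 2) (XX (-l ^ 2) s P)‖ := by
  have h1 : ∀ c : ℂ, 1 + l * ((c - 1) / l) = c := by
    intro c
    field_simp
    ring
  have h2 := hSc l ((s.1 * s.2.1 - 1) / l)
    (P.map fun u => ((u.1 * u.2.1 - 1) / l, (u.2.2 - 1) / l)) hl s P (h1 _).symm (by
      rw [List.map_map]
      refine List.map_congr_left fun u _ => ?_
      simp only [Function.comp_apply, h1])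
  have h3 := hE M l ((s.1 * s.2.1 - 1) / l)
    (P.map fun u => ((u.1 * u.2.1 - 1) / l, (u.2.2 - 1) / l)) hM hl hMl hs (by
      intro p hp
      obtain ⟨u, hu, rfl⟩ := List.mem_map.1 hp
      exact hP u hu)
  obtain ⟨X, hX⟩ : ∃ X, X = XS l ((s.1 * s.2.1 - 1) / l)
    (P.map fun u => ((u.1 * u.2.1 - 1) / l, (u.2.2 - 1) / l)) := ⟨_, rfl⟩
  rw [← hX] at h2 h3
  have h4 : l * X 0 0 - X 1 0 = l * (X 0 0 - X 1 0 / l) := by
    field_simp
  rw [h2.1, h2.2, ← h4]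
  exact h3

/-- the real estimates for `q = exp (2 x)` -/
theorem D_exp (y : ℝ) (hy : 1 ≤ |y|) : 3 / 5 ≤ |Real.exp y - 1| := by
  rcases le_total 0 y with h | h
  · rw [abs_of_nonneg h] at hy
    have h1 := Real.add_one_le_exp y
    rw [abs_of_nonneg (by linarith)]
    linarith
  · rw [abs_of_nonpos h] at hy
    have h1 : Real.exp y ≤ Real.exp (-1) := Real.exp_le_exp.2 (by linarith)
    have h2 : Real.exp (-1) * Real.exp 1 = 1 := by
      rw [← Real.exp_add]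
      simp
    have h3 := Real.exp_one_gt_d9
    have h4 := Real.exp_pos (-1)
    have h5 : Real.exp (-1) ≤ 2 / 5 := by nlinarith
    rw [abs_of_nonpos (by linarith)]
    linarith

theorem D_exp2 (y : ℝ) (hy : |y| ≤ 1) : |y| / 2 ≤ |1 - Real.exp y| ∧ Real.exp y ≤ 3 := by
  have h3 : Real.exp y ≤ Real.exp 1 := Real.exp_le_exp.2 ((le_abs_self y).trans hy)
  have h4 := Real.exp_one_lt_d9
  refine ⟨?_, by linarith⟩
  rcases le_total 0 y with h | h
  · have h1 := Real.add_one_le_exp y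
    rw [abs_of_nonneg h, abs_of_nonpos (by linarith)]
    linarith
  · have h1 := Real.abs_exp_sub_one_sub_id_le hy
    have h2 := (abs_le.1 h1).2
    rw [abs_of_nonpos h] at hy ⊢
    have h5 : Real.exp y ≤ 1 + y + y ^ 2 := by linarith
    have h6 : Real.exp y ≤ 1 := Real.exp_le_one_iff.2 h
    have h7 := Real.add_one_le_exp (-y)
    have h8 : Real.exp y * Real.exp (-y) = 1 := by
      rw [← Real.exp_add]
      simp
    have h9 := Real.exp_pos y
    rw [abs_of_nonneg (by linarith)]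
    nlinarith

theorem thm_D (hFac : St_Fac) (hSc : St_Sc) (hE : St_Est2) : St_D := by
  refine ⟨4000, fun N hN s t P R hX hY hk0 hkN hOne => ?_⟩
  obtain ⟨n, hn⟩ : ∃ n : ℝ, n = (N : ℝ) := ⟨_, rfl⟩
  have hn0 : (4000 : ℝ) ≤ n := by
    rw [hn]
    exact_mod_cast hN
  have hn1 : 0 < n := by linarith
  -- the sign
  obtain ⟨σ, hσ, hσt⟩ : ∃ σ : ℝ, |σ| = 1 ∧
      0 ≤ σ * (W8.tot (s :: P ++ t :: R) : ℝ) := by
    rcases le_total 0 (W8.tot (s :: P ++ t :: R)) with h | h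
    · refine ⟨1, by simp, ?_⟩
      rw [one_mul]
      exact_mod_cast h
    · refine ⟨-1, by simp, ?_⟩
      have h1 : (W8.tot (s :: P ++ t :: R) : ℝ) ≤ 0 := by exact_mod_cast h
      linarith
  obtain ⟨x, hx⟩ : ∃ x : ℝ, x = σ / (2 * n) := ⟨_, rfl⟩
  have hxa : |x| = 1 / (2 * n) := by
    rw [hx, abs_div, hσ, abs_of_pos (by positivity : 0 < 2 * n)]
  have hxa' : |x| * (2 * n) = 1 := by
    rw [hxa]
    field_simp
  have hx1 : |x| ≤ 1 / 8000 := by
    rw [hxa]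
    exact one_div_le_one_div_of_le (by norm_num) (by linarith)
  have hx0 : 0 < |x| := by
    rw [hxa]
    positivity
  obtain ⟨q, hq⟩ : ∃ q : ℝ, q = Real.exp (2 * x) := ⟨_, rfl⟩
  have hq0 : 0 < q := by
    rw [hq]
    exact Real.exp_pos _
  have hq1 : q ≠ 1 := by
    rw [hq]
    intro h
    rw [Real.exp_eq_one_iff] at h
    rw [show x = 0 by linarith, abs_zero] at hx0
    exact lt_irrefl _ hx0
  have hqa : ∀ a : ℤ, q ^ a = Real.exp (2 * x * a) := by
    intro a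
    rw [hq, Real.exp_mul (2 * x) a, Real.rpow_intCast]
  obtain ⟨l, hl⟩ : ∃ l : ℝ, l = Real.exp x - Real.exp (-x) := ⟨_, rfl⟩
  have hl2 : l ^ 2 = q + 1 / q - 2 := by
    have h1 : Real.exp x * Real.exp (-x) = 1 := by
      rw [← Real.exp_add]
      simp
    have h2 : q = Real.exp x ^ 2 := by
      rw [hq, ← Real.exp_nat_mul]
      norm_num
    have h3 : 1 / q = Real.exp (-x) ^ 2 := by
      rw [h2, div_eq_iff (by positivity), ← mul_pow, mul_comm, h1, one_pow]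
    rw [h3, h2, hl]
    linear_combination (-2) * h1
  have hlb : |l| ≤ 21 / 10 * |x| ∧ |x| ≤ |l| := by
    have h1 := Real.abs_exp_sub_one_sub_id_le (x := x) (by linarith)
    have h2 := Real.abs_exp_sub_one_sub_id_le (x := -x) (by rw [abs_neg]; linarith)
    have h3 : l = 2 * x + (Real.exp x - 1 - x) - (Real.exp (-x) - 1 - -x) := by
      rw [hl]
      ring
    have h4 : x ^ 2 ≤ |x| / 8000 := by
      rw [← sq_abs]
      nlinarith
    have h5 : |l - 2 * x| ≤ |x| / 4000 := by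
      rw [h3]
      have e : 2 * x + (Real.exp x - 1 - x) - (Real.exp (-x) - 1 - -x) - 2 * x =
        (Real.exp x - 1 - x) - (Real.exp (-x) - 1 - -x) := by ring
      rw [e]
      have h6 := abs_sub (Real.exp x - 1 - x) (Real.exp (-x) - 1 - -x)
      rw [neg_sq] at h2
      linarith
    have h6 : |2 * x| = 2 * |x| := by rw [abs_mul, abs_two]
    constructor
    · have h7 : |l| ≤ |2 * x| + |l - 2 * x| := by
        have := abs_add_le (2 * x) (l - 2 * x)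
        rwa [add_sub_cancel] at this
      linarith
    · have h7 : |2 * x| ≤ |l| + |l - 2 * x| := by
        have := abs_sub_abs_le_abs_sub (2 * x) l
        rw [abs_sub_comm] at this
        linarith
      linarith
  have hl0 : l ≠ 0 := fun h => by
    rw [h, abs_zero] at hlb
    linarith [hlb.2]
  have hla : 0 < |l| := abs_pos.2 hl0
  have hln : |l| * n ≤ 21 / 20 := by
    have := mul_le_mul_of_nonneg_right hlb.1 hn1.le
    linarith
  have hlC : (l : ℂ) ≠ 0 := Complex.ofReal_ne_zero.2 hl0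
  have hlN : ‖(l : ℂ)‖ = |l| := Complex.norm_real l
  -- long syllables
  have hA : ∀ a : ℤ, (N : ℤ) ≤ |a| → n / 2 ≤ ‖((q : ℂ) ^ a - 1) / (l : ℂ)‖ := by
    intro a ha
    have h1 : ((q : ℂ) ^ a - 1) / (l : ℂ) = (((q ^ a - 1) / l : ℝ) : ℂ) := by push_cast; rfl
    have h2 : (n : ℝ) ≤ |(a : ℝ)| := by
      rw [hn]
      exact_mod_cast ha
    have h3 : 1 ≤ |2 * x * a| := by
      rw [abs_mul, abs_mul, abs_two]
      have h5 := mul_le_mul_of_nonneg_left h2 hx0.le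
      linarith
    have h4 := D_exp _ h3
    rw [h1, Complex.norm_real, Real.norm_eq_abs, abs_div, hqa, le_div_iff₀ hla]
    linarith
  have hQ : (((2 - q - 1 / q : ℝ)) : ℂ) = -(l : ℂ) ^ 2 := by
    rw [show 2 - q - 1 / q = -l ^ 2 by linarith]
    push_cast
    ring
  have hqC : (q : ℂ) ≠ 0 := Complex.ofReal_ne_zero.2 hq0.ne'
  have hM : (100 : ℝ) ≤ n / 2 := by linarith
  have hMl : n / 2 * ‖(l : ℂ)‖ ≤ 2 := by
    rw [hlN]
    linarith
  have hX' := D_side hSc hE (n / 2) (l : ℂ) hM hlC hMl (wts (q : ℂ) s) (P.map (wts (q : ℂ)))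
    (by
      have := hA s.1 hX.1.1
      simpa [wts, hX.1.2] using this)
    (by
      intro u hu
      obtain ⟨v, hv, rfl⟩ := List.mem_map.1 hu
      obtain ⟨h1, h2, h3⟩ := hX.2 v hv
      refine ⟨?_, ?_⟩
      · have := hA v.1 h1
        simpa [wts, h2] using this
      · have := hA v.2.2 h3
        simpa [wts] using this)
  have hY' := D_side hSc hE (n / 2) (l : ℂ) hM hlC hMl (wts (q : ℂ) t) (R.map (wts (q : ℂ)))
    (by
      have := hA t.2.1 hY.1.1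
      simpa [wts, hY.1.2] using this)
    (by
      intro u hu
      obtain ⟨v, hv, rfl⟩ := List.mem_map.1 hu
      obtain ⟨h1, h2, h3⟩ := hY.2 v hv
      refine ⟨?_, ?_⟩
      · have := hA v.2.1 h1
        simpa [wts, h2] using this
      · have := hA v.2.2 h3
        simpa [wts] using this)
  have hF := hFac.1 (-(l : ℂ) ^ 2) (wts (q : ℂ) s) (wts (q : ℂ) t) (P.map (wts (q : ℂ)))
    (R.map (wts (q : ℂ))) (by simpa using hlC)
    (by
      intro u hu
      rcases List.mem_cons.1 hu with rfl | hu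
      · simp [wts, hX.1.2]
      · obtain ⟨v, hv, rfl⟩ := List.mem_map.1 hu
        simp [wts, (hX.2 v hv).2.1])
    (by
      intro u hu
      rcases List.mem_cons.1 hu with rfl | hu
      · simp [wts, hY.1.2]
      · obtain ⟨v, hv, rfl⟩ := List.mem_map.1 hu
        simp [wts, (hY.2 v hv).2.1])
  have hO := hOne q hq0 hq1
  rw [hQ] at hO
  have hmap : (s :: P ++ t :: R).map (wts (q : ℂ)) = wts (q : ℂ) s :: P.map (wts (q : ℂ)) ++
      wts (q : ℂ) t :: R.map (wts (q : ℂ)) := by simp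
  rw [hmap] at hO
  -- names
  obtain ⟨E, hEE⟩ : ∃ E, E = U5.EE (-(l : ℂ) ^ 2) (wts (q : ℂ) s :: P.map (wts (q : ℂ)) ++
      wts (q : ℂ) t :: R.map (wts (q : ℂ))) := ⟨_, rfl⟩
  obtain ⟨G, hG⟩ : ∃ G, G = GG (-(l : ℂ) ^ 2) (XX (-(l : ℂ) ^ 2) (wts (q : ℂ) s)
    (P.map (wts (q : ℂ)))) := ⟨_, rfl⟩
  obtain ⟨G', hG'⟩ : ∃ G', G' = GG (-(l : ℂ) ^ 2) (XX (-(l : ℂ) ^ 2) (wts (q : ℂ) t)
    (R.map (wts (q : ℂ)))) := ⟨_, rfl⟩
  obtain ⟨D, hD⟩ : ∃ D, D = -(l : ℂ) ^ 2 - 2 + (XX (-(l : ℂ) ^ 2) (wts (q : ℂ) s)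
    (P.map (wts (q : ℂ)))).trace := ⟨_, rfl⟩
  obtain ⟨D', hD'⟩ : ∃ D', D' = -(l : ℂ) ^ 2 - 2 + (XX (-(l : ℂ) ^ 2) (wts (q : ℂ) t)
    (R.map (wts (q : ℂ)))).trace := ⟨_, rfl⟩
  obtain ⟨z, hz⟩ : ∃ z, z = (wts (q : ℂ) s).2.2 * (wts (q : ℂ) t).2.2 := ⟨_, rfl⟩
  rw [← hG, ← hD, norm_mul, hlN] at hX'
  rw [← hG', ← hD', norm_mul, hlN] at hY'
  rw [← hEE] at hO
  rw [← hEE, FF, FF, ← hG, ← hG', ← hD, ← hD', ← hz] at hF
  -- `ζ`
  have hz1 : z = ((Real.exp (2 * x * ((s.2.2 + t.2.2 : ℤ) : ℝ)) : ℝ) : ℂ) := by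
    rw [hz, ← hqa]
    push_cast
    simp only [wts]
    rw [← zpow_add₀ hqC]
  have hy : |2 * x * ((s.2.2 + t.2.2 : ℤ) : ℝ)| ≤ 1 ∧
      1 / n ≤ |2 * x * ((s.2.2 + t.2.2 : ℤ) : ℝ)| := by
    have h1 : |((s.2.2 + t.2.2 : ℤ) : ℝ)| ≤ n := by
      rw [hn]
      exact_mod_cast hkN
    have h2 : (1 : ℝ) ≤ |((s.2.2 + t.2.2 : ℤ) : ℝ)| := by
      exact_mod_cast Int.one_le_abs hk0
    have h3 : 2 * |x| = 1 / n := by
      rw [hxa]
      field_simp
    rw [abs_mul, abs_mul, abs_two, h3]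
    constructor
    · rw [div_mul_eq_mul_div, one_mul, div_le_one hn1]
      exact h1
    · exact le_mul_of_one_le_right (by positivity) h2
  obtain ⟨hy1, hy2⟩ := D_exp2 _ hy.1
  have hz2 : 1 / (2 * n) ≤ ‖1 - z‖ ∧ ‖z‖ ≤ 3 := by
    constructor
    · have h1 : (1 : ℂ) - z = ((1 - Real.exp (2 * x * ((s.2.2 + t.2.2 : ℤ) : ℝ)) : ℝ) : ℂ) := by
        rw [hz1]
        push_cast
        ring
      rw [h1, Complex.norm_real, Real.norm_eq_abs]
      have h2 : 1 / (2 * n) = 1 / n / 2 := by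
        field_simp
      rw [h2]
      linarith [hy.2]
    · rw [hz1, Complex.norm_real, Real.norm_eq_abs, abs_of_pos (Real.exp_pos _)]
      exact hy2
  -- the size of `D`, `D'`
  have hnn : |l| / (n / 2) * 100 ≤ 210 / n ^ 2 := by
    rw [div_div_eq_mul_div, div_mul_eq_mul_div, div_le_div_iff₀ hn1 (by positivity)]
    have h1 := mul_le_mul_of_nonneg_right hln hn1.le
    linarith
  have hDb : ‖D‖ ≤ 210 / n ^ 2 * ‖G‖ := by
    have h1 : ‖D‖ ≤ 100 * (|l| * ‖G‖) / (n / 2) := by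
      rw [le_div_iff₀ (by positivity)]
      exact hX'.2
    have h2 : 100 * (|l| * ‖G‖) / (n / 2) = |l| / (n / 2) * 100 * ‖G‖ := by ring
    rw [h2] at h1
    exact h1.trans (mul_le_mul_of_nonneg_right hnn (norm_nonneg _))
  have hDb' : ‖D'‖ ≤ 210 / n ^ 2 * ‖G'‖ := by
    have h1 : ‖D'‖ ≤ 100 * (|l| * ‖G'‖) / (n / 2) := by
      rw [le_div_iff₀ (by positivity)]
      exact hY'.2
    have h2 : 100 * (|l| * ‖G'‖) / (n / 2) = |l| / (n / 2) * 100 * ‖G'‖ := by ring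
    rw [h2] at h1
    exact h1.trans (mul_le_mul_of_nonneg_right hnn (norm_nonneg _))
  -- the bracket is large
  obtain ⟨B, hB⟩ : ∃ B, B = (D - G) * (D' - G') + (-(l : ℂ) ^ 2 - 1) * z * (G * G') := ⟨_, rfl⟩
  rw [← hB] at hF
  obtain ⟨g, hg⟩ : ∃ g : ℝ, g = ‖G‖ := ⟨_, rfl⟩
  obtain ⟨g', hg'⟩ : ∃ g' : ℝ, g' = ‖G'‖ := ⟨_, rfl⟩
  obtain ⟨e, he⟩ : ∃ e : ℝ, e = 210 / n ^ 2 := ⟨_, rfl⟩
  rw [← he, ← hg] at hDb
  rw [← he, ← hg'] at hDb'
  rw [← hg] at hX'
  rw [← hg'] at hY'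
  have hg0 : 0 ≤ g := hg ▸ norm_nonneg _
  have hg0' : 0 ≤ g' := hg' ▸ norm_nonneg _
  have he0 : 0 ≤ e := by
    rw [he]
    positivity
  have hen : e * n ≤ 6 / 100 := by
    rw [he, div_mul_eq_mul_div, div_le_iff₀ (by positivity)]
    have h1 := mul_le_mul_of_nonneg_right hn0 hn1.le
    linarith
  have he1 : e ≤ 1 := by
    have h1 := mul_le_mul_of_nonneg_left hn0 he0
    linarith
  have hll : l ^ 2 * n ≤ 1 / 1000 := by
    rw [← sq_abs]
    have h1 : |l| ≤ 1 / 3000 := by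
      have h2 := mul_le_mul_of_nonneg_left hn0 hla.le
      linarith
    have h3 := mul_le_mul h1 hln (by positivity) (by norm_num)
    linarith
  have hl1 : l ^ 2 ≤ 1 := by
    have h1 := mul_le_mul_of_nonneg_left hn0 (sq_nonneg l)
    linarith
  have hl2C : ‖(l : ℂ) ^ 2‖ = l ^ 2 := by
    rw [norm_pow, hlN, sq_abs]
  have hB1 : g * g' * (1 / (2 * n)) ≤ ‖B‖ + (e * e + e + e + 3 * l ^ 2) * (g * g') := by
    have h1 : G * G' * (1 - z) = B - D * D' + D * G' + G * D' + (l : ℂ) ^ 2 * z * (G * G') := by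
      rw [hB]
      ring
    have h2 : g * g' * (1 / (2 * n)) ≤ ‖G * G' * (1 - z)‖ := by
      rw [norm_mul, norm_mul, ← hg, ← hg']
      exact mul_le_mul_of_nonneg_left hz2.1 (by positivity)
    have h3 : ‖D * D'‖ ≤ e * e * (g * g') := by
      rw [norm_mul]
      calc ‖D‖ * ‖D'‖ ≤ e * g * (e * g') :=
            mul_le_mul hDb hDb' (norm_nonneg _) (by positivity)
        _ = e * e * (g * g') := by ring
    have h4 : ‖D * G'‖ ≤ e * (g * g') := by
      rw [norm_mul, ← hg']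
      calc ‖D‖ * g' ≤ e * g * g' := mul_le_mul_of_nonneg_right hDb hg0'
        _ = e * (g * g') := by ring
    have h5 : ‖G * D'‖ ≤ e * (g * g') := by
      rw [norm_mul, ← hg]
      calc g * ‖D'‖ ≤ g * (e * g') := mul_le_mul_of_nonneg_left hDb' hg0
        _ = e * (g * g') := by ring
    have h6 : ‖(l : ℂ) ^ 2 * z * (G * G')‖ ≤ 3 * l ^ 2 * (g * g') := by
      rw [norm_mul, norm_mul, norm_mul, hl2C, ← hg, ← hg']
      refine mul_le_mul_of_nonneg_right ?_ (by positivity)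
      have h7 := mul_le_mul_of_nonneg_left hz2.2 (sq_nonneg l)
      linarith
    have h7 : ‖G * G' * (1 - z)‖ ≤ ‖B‖ + ‖D * D'‖ + ‖D * G'‖ + ‖G * D'‖ +
        ‖(l : ℂ) ^ 2 * z * (G * G')‖ := by
      rw [h1]
      refine (norm_add_le _ _).trans (add_le_add_left ?_ _)
      refine (norm_add_le _ _).trans (add_le_add_left ?_ _)
      refine (norm_add_le _ _).trans (add_le_add_left ?_ _)
      exact norm_sub_le _ _
    linarith
  have hB2 : g * g' ≤ 4 * n * ‖B‖ := by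
    have h1 : (e * e + e + e + 3 * l ^ 2) * n ≤ 1 / 4 := by
      have h7 := mul_le_mul he1 hen (by positivity) (by norm_num)
      linarith
    have h2 : 0 ≤ g * g' := by positivity
    have h3 : g * g' * (1 / (2 * n)) * n = g * g' / 2 := by
      field_simp
    have h4 := mul_le_mul_of_nonneg_right hB1 hn1.le
    rw [h3] at h4
    have h5 : (‖B‖ + (e * e + e + e + 3 * l ^ 2) * (g * g')) * n =
        ‖B‖ * n + (e * e + e + e + 3 * l ^ 2) * n * (g * g') := by ring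
    rw [h5] at h4
    have h6 := mul_le_mul_of_nonneg_right h1 h2
    linarith
  have hB3 : n / 256 ≤ l ^ 2 * ‖B‖ := by
    have h1 : n / 8 * (n / 8) ≤ |l| * g * (|l| * g') :=
      mul_le_mul (by linarith [hX'.1]) (by linarith [hY'.1]) (by positivity) (by positivity)
    have h2 : |l| * g * (|l| * g') = l ^ 2 * (g * g') := by
      rw [← sq_abs l]
      ring
    have h3 : l ^ 2 * (g * g') ≤ l ^ 2 * (4 * n * ‖B‖) :=
      mul_le_mul_of_nonneg_left hB2 (sq_nonneg _)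
    have h4 : n * (n / 256) ≤ n * (l ^ 2 * ‖B‖) := by
      rw [h2] at h1
      linarith
    exact le_of_mul_le_mul_left h4 hn1
  have hE1 : n / 512 ≤ ‖E‖ := by
    have h1 := congrArg norm hF
    rw [norm_mul, norm_mul, norm_neg, hl2C] at h1
    have h2 : ‖-(l : ℂ) ^ 2 - 1‖ ≤ 2 := by
      refine (norm_sub_le _ _).trans ?_
      rw [norm_neg, hl2C, norm_one]
      linarith
    have h3 := mul_le_mul_of_nonneg_right h2 (norm_nonneg E)
    linarith
  -- but it is small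
  have hE2 : ‖E‖ ^ 2 ≤ 1 := by
    rw [hO]
    have h1 : (1 - q) ^ 2 / q = l ^ 2 := by
      rw [hl2]
      field_simp
      ring
    have h2 : q ^ (-W8.tot (s :: P ++ t :: R)) ≤ 1 := by
      rw [hqa, Real.exp_le_one_iff]
      have h3 : 2 * x * ((-W8.tot (s :: P ++ t :: R) : ℤ) : ℝ) =
          -(σ * (W8.tot (s :: P ++ t :: R) : ℝ)) / n := by
        rw [hx]
        push_cast
        field_simp
      rw [h3]
      exact div_nonpos_of_nonpos_of_nonneg (by linarith) hn1.le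
    rw [h1]
    have h3 := mul_le_mul hl1 h2 (zpow_pos hq0 _).le (by norm_num)
    linarith
  have h1 : (2 : ℝ) ≤ ‖E‖ := by linarith
  have h2 := mul_le_mul h1 h1 (by norm_num) (norm_nonneg _)
  linarith

end Pool.Agent.FB.Z1
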