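import Mathlib
import Pool.Agent.FB.Z1.St

/-!
# FB/Z1, module EST2 (helper69): the estimate for the scaled words
-/

set_option autoImplicit false

open Matrix LaurentPolynomial Pool.RU Pool.Agent.FB.U5

namespace Pool.Agent.FB.Z1

namespace EST2

/-- the product of the blocks -/
noncomputable def KK (l : ℂ) (L : List (ℂ × ℂ)) : Matrix (Fin 2) (Fin 2) ℂ :=
  (L.map fun p => Sg l p.2 * Rg l p.1).prod

lemma KK_nil (l : ℂ) : KK l [] = 1 := rfl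

lemma KK_cons (l : ℂ) (p : ℂ × ℂ) (L : List (ℂ × ℂ)) :
    KK l (p :: L) = (Sg l p.2 * Rg l p.1) * KK l L := by
  simp [KK]

lemma KK_concat (l : ℂ) (p : ℂ × ℂ) (L : List (ℂ × ℂ)) :
    KK l (L ++ [p]) = KK l L * (Sg l p.2 * Rg l p.1) := by
  simp [KK]

lemma mul00 (N K : Matrix (Fin 2) (Fin 2) ℂ) :
    (N * K) 0 0 = N 0 0 * K 0 0 + N 0 1 * K 1 0 := by simp [Matrix.mul_apply, Fin.sum_univ_two]
lemma mul01 (N K : Matrix (Fin 2) (Fin 2) ℂ) :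
    (N * K) 0 1 = N 0 0 * K 0 1 + N 0 1 * K 1 1 := by simp [Matrix.mul_apply, Fin.sum_univ_two]
lemma mul10 (N K : Matrix (Fin 2) (Fin 2) ℂ) :
    (N * K) 1 0 = N 1 0 * K 0 0 + N 1 1 * K 1 0 := by simp [Matrix.mul_apply, Fin.sum_univ_two]
lemma mul11 (N K : Matrix (Fin 2) (Fin 2) ℂ) :
    (N * K) 1 1 = N 1 0 * K 0 1 + N 1 1 * K 1 1 := by simp [Matrix.mul_apply, Fin.sum_univ_two]

/-- bounds for a block, `u = 1 / M` -/
lemma block (M : ℝ) (l : ℂ) (hM : 100 ≤ M) (hl : M * ‖l‖ ≤ 2) (p : ℂ × ℂ) (h1 : M ≤ ‖p.1‖)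
    (h2 : M ≤ ‖p.2‖) :
    ∃ P : ℝ, 10000 ≤ P ∧ P * (1 - 3 * (1 / M) ^ 2) ≤ ‖(Sg l p.2 * Rg l p.1) 0 0‖ ∧
      ‖(Sg l p.2 * Rg l p.1) 0 1‖ ≤ 3 * (1 / M) * P ∧
      ‖(Sg l p.2 * Rg l p.1) 1 0‖ ≤ (1 / M) * P ∧
      ‖(Sg l p.2 * Rg l p.1) 1 1‖ ≤ 3 * (1 / M) ^ 2 * P := by
  obtain ⟨A, B⟩ := p
  simp only at h1 h2 ⊢
  have e00 : (Sg l B * Rg l A) 0 0 = 1 + l * B - B * A := by
    rw [mul00]; simp [Sg, Rg]; ring
  have e01 : (Sg l B * Rg l A) 0 1 = -(B * (1 + l * A)) := by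
    rw [mul01]; simp [Sg, Rg]
  have e10 : (Sg l B * Rg l A) 1 0 = A := by
    rw [mul10]; simp [Sg, Rg]
  have e11 : (Sg l B * Rg l A) 1 1 = 1 + l * A := by
    rw [mul11]; simp [Sg, Rg]
  have hM0 : 0 < M := by linarith
  have hu : 0 < 1 / M := by positivity
  set u := 1 / M with hu'
  have hMu : M * u = 1 := by rw [hu']; field_simp
  have hln : ‖l‖ ≤ 2 * u := by
    have h3 : ‖l‖ = (M * ‖l‖) * u := by
      calc ‖l‖ = ‖l‖ * (M * u) := by rw [hMu, mul_one]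
        _ = (M * ‖l‖) * u := by ring
    rw [h3]
    exact mul_le_mul_of_nonneg_right hl hu.le
  have ha : 1 ≤ ‖A‖ * u := by
    calc (1 : ℝ) = M * u := hMu.symm
      _ ≤ ‖A‖ * u := mul_le_mul_of_nonneg_right h1 hu.le
  have hb : 1 ≤ ‖B‖ * u := by
    calc (1 : ℝ) = M * u := hMu.symm
      _ ≤ ‖B‖ * u := mul_le_mul_of_nonneg_right h2 hu.le
  have hA0 := norm_nonneg A
  have hB0 := norm_nonneg B
  have hl0 := norm_nonneg l
  have hab : 1 ≤ (‖A‖ * u) * (‖B‖ * u) := by nlinarith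
  have h1A : ‖1 + l * A‖ ≤ 3 * (‖A‖ * u) := by
    refine (norm_add_le _ _).trans ?_
    rw [norm_one, norm_mul]
    nlinarith [mul_le_mul_of_nonneg_right hln hA0]
  refine ⟨‖A‖ * ‖B‖, ?_, ?_, ?_, ?_, ?_⟩
  · nlinarith
  · rw [e00]
    have h3 : ‖B * A‖ - ‖1 + l * B‖ ≤ ‖1 + l * B - B * A‖ := by
      rw [norm_sub_rev (1 + l * B) (B * A)]
      exact norm_sub_norm_le _ _
    have h4 : ‖1 + l * B‖ ≤ 3 * (‖B‖ * u) := by
      refine (norm_add_le _ _).trans ?_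
      rw [norm_one, norm_mul]
      nlinarith [mul_le_mul_of_nonneg_right hln hB0]
    rw [norm_mul] at h3
    have h5 : ‖B‖ * u ≤ (‖A‖ * u) * (‖B‖ * u) := by nlinarith
    nlinarith
  · rw [e01, norm_neg, norm_mul]
    calc ‖B‖ * ‖1 + l * A‖ ≤ ‖B‖ * (3 * (‖A‖ * u)) := mul_le_mul_of_nonneg_left h1A hB0
      _ = 3 * u * (‖A‖ * ‖B‖) := by ring
  · rw [e10]
    nlinarith [mul_le_mul_of_nonneg_left hb hA0]
  · rw [e11]
    have h5 : ‖A‖ * u ≤ (‖A‖ * u) * (‖B‖ * u) := by nlinarith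
    calc ‖1 + l * A‖ ≤ 3 * (‖A‖ * u) := h1A
      _ ≤ 3 * ((‖A‖ * u) * (‖B‖ * u)) := by linarith
      _ = 3 * u ^ 2 * (‖A‖ * ‖B‖) := by ring

/-- the first column -/
lemma col (M : ℝ) (l : ℂ) (hM : 100 ≤ M) (hl : M * ‖l‖ ≤ 2) :
    ∀ L : List (ℂ × ℂ), (∀ p ∈ L, M ≤ ‖p.1‖ ∧ M ≤ ‖p.2‖) →
      1 ≤ ‖KK l L 0 0‖ ∧ ‖KK l L 1 0‖ ≤ 6 * (1 / M) * ‖KK l L 0 0‖ := by
  have hM0 : 0 < M := by linarith
  have hu : 0 < 1 / M := by positivity
  have hu1 : 1 / M ≤ 1 / 100 := one_div_le_one_div_of_le (by norm_num) hM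
  intro L
  induction L with
  | nil =>
    intro _
    rw [KK_nil]
    simp
    positivity
  | cons p L ih =>
    intro h
    obtain ⟨h1, h2⟩ := ih fun q hq => h q (List.mem_cons_of_mem _ hq)
    obtain ⟨hp1, hp2⟩ := h p List.mem_cons_self
    obtain ⟨P, hP, b00, b01, b10, b11⟩ := block M l hM hl p hp1 hp2
    rw [KK_cons, mul00, mul10]
    set N := Sg l p.2 * Rg l p.1
    set K := KK l L
    set u := 1 / M
    have h3 : P * (1 - 3 * u ^ 2) * ‖K 0 0‖ - 3 * u * P * (6 * u * ‖K 0 0‖) ≤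
        ‖N 0 0 * K 0 0 + N 0 1 * K 1 0‖ := by
      have h4 : ‖N 0 0 * K 0 0‖ - ‖N 0 1 * K 1 0‖ ≤ ‖N 0 0 * K 0 0 + N 0 1 * K 1 0‖ := by
        have := norm_sub_norm_le (N 0 0 * K 0 0) (-(N 0 1 * K 1 0))
        rwa [norm_neg, sub_neg_eq_add] at this
      rw [norm_mul, norm_mul] at h4
      have h5 : P * (1 - 3 * u ^ 2) * ‖K 0 0‖ ≤ ‖N 0 0‖ * ‖K 0 0‖ :=
        mul_le_mul_of_nonneg_right b00 (norm_nonneg _)
      have h6 : ‖N 0 1‖ * ‖K 1 0‖ ≤ 3 * u * P * (6 * u * ‖K 0 0‖) :=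
        mul_le_mul b01 h2 (norm_nonneg _) (by positivity)
      linarith
    have h7 : ‖N 1 0 * K 0 0 + N 1 1 * K 1 0‖ ≤
        u * P * ‖K 0 0‖ + 3 * u ^ 2 * P * (6 * u * ‖K 0 0‖) := by
      refine (norm_add_le _ _).trans ?_
      rw [norm_mul, norm_mul]
      exact add_le_add (mul_le_mul_of_nonneg_right b10 (norm_nonneg _))
        (mul_le_mul b11 h2 (norm_nonneg _) (by positivity))
    have hu2 : u ^ 2 ≤ 1 / 10000 := by nlinarith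
    have hPK : 10000 ≤ P * ‖K 0 0‖ := by nlinarith
    have h8 : P * ‖K 0 0‖ * (9 / 10) ≤ ‖N 0 0 * K 0 0 + N 0 1 * K 1 0‖ := by
      have h9 : P * (1 - 3 * u ^ 2) * ‖K 0 0‖ - 3 * u * P * (6 * u * ‖K 0 0‖) =
          P * ‖K 0 0‖ * (1 - 21 * u ^ 2) := by ring
      rw [h9] at h3
      refine le_trans ?_ h3
      exact mul_le_mul_of_nonneg_left (by linarith) (by linarith)
    refine ⟨by linarith, h7.trans ?_⟩
    have h10 : u * P * ‖K 0 0‖ + 3 * u ^ 2 * P * (6 * u * ‖K 0 0‖) =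
        u * (P * ‖K 0 0‖ * (1 + 18 * u ^ 2)) := by ring
    rw [h10]
    have h11 : 6 * u * (P * ‖K 0 0‖ * (9 / 10)) ≤
        6 * u * ‖N 0 0 * K 0 0 + N 0 1 * K 1 0‖ :=
      mul_le_mul_of_nonneg_left h8 (by positivity)
    refine le_trans ?_ h11
    have h12 : P * ‖K 0 0‖ * (1 + 18 * u ^ 2) ≤ P * ‖K 0 0‖ * (6 * (9 / 10)) :=
      mul_le_mul_of_nonneg_left (by linarith) (by linarith)
    calc u * (P * ‖K 0 0‖ * (1 + 18 * u ^ 2)) ≤ u * (P * ‖K 0 0‖ * (6 * (9 / 10))) :=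
        mul_le_mul_of_nonneg_left h12 hu.le
      _ = 6 * u * (P * ‖K 0 0‖ * (9 / 10)) := by ring

/-- the first row -/
lemma row (M : ℝ) (l : ℂ) (hM : 100 ≤ M) (hl : M * ‖l‖ ≤ 2) :
    ∀ L : List (ℂ × ℂ), (∀ p ∈ L, M ≤ ‖p.1‖ ∧ M ≤ ‖p.2‖) →
      ‖KK l L 0 1‖ ≤ 6 * (1 / M) * ‖KK l L 0 0‖ := by
  have hM0 : 0 < M := by linarith
  have hu : 0 < 1 / M := by positivity
  have hu1 : 1 / M ≤ 1 / 100 := one_div_le_one_div_of_le (by norm_num) hM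
  intro L
  induction L using List.reverseRecOn with
  | nil =>
    intro _
    rw [KK_nil]
    simp
    positivity
  | append_singleton L p ih =>
    intro h
    have h2 := ih fun q hq => h q (List.mem_append_left _ hq)
    obtain ⟨hp1, hp2⟩ := h p (by simp)
    obtain ⟨P, hP, b00, b01, b10, b11⟩ := block M l hM hl p hp1 hp2
    rw [KK_concat, mul00, mul01]
    set N := Sg l p.2 * Rg l p.1
    set K := KK l L
    set u := 1 / M
    have hK0 := norm_nonneg (K 0 0)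
    have h3 : ‖K 0 0‖ * (P * (1 - 3 * u ^ 2)) - (6 * u * ‖K 0 0‖) * (u * P) ≤
        ‖K 0 0 * N 0 0 + K 0 1 * N 1 0‖ := by
      have h4 : ‖K 0 0 * N 0 0‖ - ‖K 0 1 * N 1 0‖ ≤ ‖K 0 0 * N 0 0 + K 0 1 * N 1 0‖ := by
        have := norm_sub_norm_le (K 0 0 * N 0 0) (-(K 0 1 * N 1 0))
        rwa [norm_neg, sub_neg_eq_add] at this
      rw [norm_mul, norm_mul] at h4
      have h5 : ‖K 0 0‖ * (P * (1 - 3 * u ^ 2)) ≤ ‖K 0 0‖ * ‖N 0 0‖ :=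
        mul_le_mul_of_nonneg_left b00 (norm_nonneg _)
      have h6 : ‖K 0 1‖ * ‖N 1 0‖ ≤ (6 * u * ‖K 0 0‖) * (u * P) :=
        mul_le_mul h2 b10 (norm_nonneg _) (by positivity)
      linarith
    have h7 : ‖K 0 0 * N 0 1 + K 0 1 * N 1 1‖ ≤
        ‖K 0 0‖ * (3 * u * P) + (6 * u * ‖K 0 0‖) * (3 * u ^ 2 * P) := by
      refine (norm_add_le _ _).trans ?_
      rw [norm_mul, norm_mul]
      exact add_le_add (mul_le_mul_of_nonneg_left b01 (norm_nonneg _))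
        (mul_le_mul h2 b11 (norm_nonneg _) (by positivity))
    have hu2 : u ^ 2 ≤ 1 / 10000 := by nlinarith
    have hPK : 0 ≤ P * ‖K 0 0‖ := by positivity
    have h8 : P * ‖K 0 0‖ * (9 / 10) ≤ ‖K 0 0 * N 0 0 + K 0 1 * N 1 0‖ := by
      have h9 : ‖K 0 0‖ * (P * (1 - 3 * u ^ 2)) - (6 * u * ‖K 0 0‖) * (u * P) =
          P * ‖K 0 0‖ * (1 - 9 * u ^ 2) := by ring
      rw [h9] at h3
      refine le_trans ?_ h3
      exact mul_le_mul_of_nonneg_left (by linarith) hPK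
    refine h7.trans ?_
    have h10 : ‖K 0 0‖ * (3 * u * P) + (6 * u * ‖K 0 0‖) * (3 * u ^ 2 * P) =
        u * (P * ‖K 0 0‖ * (3 + 18 * u ^ 2)) := by ring
    rw [h10]
    have h11 : 6 * u * (P * ‖K 0 0‖ * (9 / 10)) ≤
        6 * u * ‖K 0 0 * N 0 0 + K 0 1 * N 1 0‖ :=
      mul_le_mul_of_nonneg_left h8 (by positivity)
    refine le_trans ?_ h11
    have h12 : P * ‖K 0 0‖ * (3 + 18 * u ^ 2) ≤ P * ‖K 0 0‖ * (6 * (9 / 10)) :=
      mul_le_mul_of_nonneg_left (by linarith) hPK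
    calc u * (P * ‖K 0 0‖ * (3 + 18 * u ^ 2)) ≤ u * (P * ‖K 0 0‖ * (6 * (9 / 10))) :=
        mul_le_mul_of_nonneg_left h12 hu.le
      _ = 6 * u * (P * ‖K 0 0‖ * (9 / 10)) := by ring

/-- the last entry -/
lemma diag (M : ℝ) (l : ℂ) (hM : 100 ≤ M) (hl : M * ‖l‖ ≤ 2) :
    ∀ L : List (ℂ × ℂ), (∀ p ∈ L, M ≤ ‖p.1‖ ∧ M ≤ ‖p.2‖) →
      ‖KK l L 1 1‖ ≤ ‖KK l L 0 0‖ ∧ (L ≠ [] → ‖KK l L 1 1‖ ≤ 12 * (1 / M) ^ 2 * ‖KK l L 0 0‖) := by
  have hM0 : 0 < M := by linarith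
  have hu : 0 < 1 / M := by positivity
  have hu1 : 1 / M ≤ 1 / 100 := one_div_le_one_div_of_le (by norm_num) hM
  intro L
  induction L with
  | nil =>
    intro _
    rw [KK_nil]
    refine ⟨by simp, fun h => absurd rfl h⟩
  | cons p L ih =>
    intro h
    have hL : ∀ q ∈ L, M ≤ ‖q.1‖ ∧ M ≤ ‖q.2‖ := fun q hq => h q (List.mem_cons_of_mem _ hq)
    obtain ⟨h1, -⟩ := ih hL
    obtain ⟨hp1, hp2⟩ := h p List.mem_cons_self
    obtain ⟨P, hP, b00, b01, b10, b11⟩ := block M l hM hl p hp1 hp2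
    have hr := row M l hM hl L hL
    have hc := (col M l hM hl L hL).2
    rw [KK_cons, mul00, mul11]
    set N := Sg l p.2 * Rg l p.1
    set K := KK l L
    set u := 1 / M
    have hK0 := norm_nonneg (K 0 0)
    have hu2 : u ^ 2 ≤ 1 / 10000 := by nlinarith
    have hPK : 0 ≤ P * ‖K 0 0‖ := by positivity
    have h8 : P * ‖K 0 0‖ * (9 / 10) ≤ ‖N 0 0 * K 0 0 + N 0 1 * K 1 0‖ := by
      have h4 : ‖N 0 0 * K 0 0‖ - ‖N 0 1 * K 1 0‖ ≤ ‖N 0 0 * K 0 0 + N 0 1 * K 1 0‖ := by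
        have := norm_sub_norm_le (N 0 0 * K 0 0) (-(N 0 1 * K 1 0))
        rwa [norm_neg, sub_neg_eq_add] at this
      rw [norm_mul, norm_mul] at h4
      have h5 : P * (1 - 3 * u ^ 2) * ‖K 0 0‖ ≤ ‖N 0 0‖ * ‖K 0 0‖ :=
        mul_le_mul_of_nonneg_right b00 (norm_nonneg _)
      have h6 : ‖N 0 1‖ * ‖K 1 0‖ ≤ 3 * u * P * (6 * u * ‖K 0 0‖) :=
        mul_le_mul b01 hc (norm_nonneg _) (by positivity)
      have h9 : P * (1 - 3 * u ^ 2) * ‖K 0 0‖ - 3 * u * P * (6 * u * ‖K 0 0‖) =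
          P * ‖K 0 0‖ * (1 - 21 * u ^ 2) := by ring
      have h10 : P * ‖K 0 0‖ * (9 / 10) ≤ P * ‖K 0 0‖ * (1 - 21 * u ^ 2) :=
        mul_le_mul_of_nonneg_left (by linarith) hPK
      linarith
    have h7 : ‖N 1 0 * K 0 1 + N 1 1 * K 1 1‖ ≤
        u * P * (6 * u * ‖K 0 0‖) + 3 * u ^ 2 * P * ‖K 0 0‖ := by
      refine (norm_add_le _ _).trans ?_
      rw [norm_mul, norm_mul]
      exact add_le_add (mul_le_mul b10 hr (norm_nonneg _) (by positivity))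
        (mul_le_mul b11 h1 (norm_nonneg _) (by positivity))
    have h10 : u * P * (6 * u * ‖K 0 0‖) + 3 * u ^ 2 * P * ‖K 0 0‖ =
        9 * u ^ 2 * (P * ‖K 0 0‖) := by ring
    rw [h10] at h7
    have h11 : ‖N 1 0 * K 0 1 + N 1 1 * K 1 1‖ ≤
        12 * u ^ 2 * ‖N 0 0 * K 0 0 + N 0 1 * K 1 0‖ := by
      refine h7.trans ?_
      calc 9 * u ^ 2 * (P * ‖K 0 0‖) ≤ 12 * u ^ 2 * (P * ‖K 0 0‖ * (9 / 10)) := by
            have : 0 ≤ u ^ 2 * (P * ‖K 0 0‖) := by positivity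
            nlinarith
        _ ≤ 12 * u ^ 2 * ‖N 0 0 * K 0 0 + N 0 1 * K 1 0‖ :=
            mul_le_mul_of_nonneg_left h8 (by positivity)
    refine ⟨h11.trans ?_, fun _ => h11⟩
    have h12 := norm_nonneg (N 0 0 * K 0 0 + N 0 1 * K 1 0)
    nlinarith

end EST2

open EST2 in
theorem thm_Est2 : St_Est2 := by
  intro M l A L hM hl0 hl hA hL
  have hM0 : 0 < M := by linarith
  have hu : 0 < 1 / M := by positivity
  have hu1 : 1 / M ≤ 1 / 100 := one_div_le_one_div_of_le (by norm_num) hM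
  obtain ⟨h00, h10⟩ := col M l hM hl L hL
  have h01 := row M l hM hl L hL
  obtain ⟨h11, h11'⟩ := diag M l hM hl L hL
  have hX : XS l A L = Rg l A * KK l L := rfl
  have hMu : M * (1 / M) = 1 := by field_simp
  set u := 1 / M with hu'
  have hln : ‖l‖ ≤ 2 * u := by
    have h3 : ‖l‖ = (M * ‖l‖) * u := by
      calc ‖l‖ = ‖l‖ * (M * u) := by rw [hMu, mul_one]
        _ = (M * ‖l‖) * u := by ring
    rw [h3]
    exact mul_le_mul_of_nonneg_right hl hu.le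
  have hu2 : u ^ 2 ≤ 1 / 10000 := by nlinarith
  have hl0' := norm_nonneg l
  have hA0 : 0 < ‖A‖ := by linarith
  set K := KK l L with hK
  have e00 : XS l A L 0 0 = K 0 0 := by
    rw [hX, mul00]; simp [Rg]
  have e10 : XS l A L 1 0 = A * K 0 0 + (1 + l * A) * K 1 0 := by
    rw [hX, mul10]; simp [Rg]
  have e11 : XS l A L 1 1 = A * K 0 1 + (1 + l * A) * K 1 1 := by
    rw [hX, mul11]; simp [Rg]
  have hAu : 1 ≤ ‖A‖ * u := by
    calc (1 : ℝ) = M * u := hMu.symm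
      _ ≤ ‖A‖ * u := mul_le_mul_of_nonneg_right hA hu.le
  have h1A : ‖1 + l * A‖ ≤ 3 * (‖A‖ * u) := by
    refine (norm_add_le _ _).trans ?_
    rw [norm_one, norm_mul]
    nlinarith [mul_le_mul_of_nonneg_right hln hA0.le]
  -- the main term
  have key : ‖A‖ * ‖K 0 0‖ * (9 / 10) ≤ ‖l * XS l A L 0 0 - XS l A L 1 0‖ := by
    rw [e00, e10]
    have h3 : l * K 0 0 - (A * K 0 0 + (1 + l * A) * K 1 0) =
        -(A * K 0 0 - (l * K 0 0 - (1 + l * A) * K 1 0)) := by ring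
    rw [h3, norm_neg]
    have h4 := norm_sub_norm_le (A * K 0 0) (l * K 0 0 - (1 + l * A) * K 1 0)
    have h5 : ‖l * K 0 0 - (1 + l * A) * K 1 0‖ ≤
        2 * u * ‖K 0 0‖ + 3 * (‖A‖ * u) * (6 * u * ‖K 0 0‖) := by
      refine (norm_sub_le _ _).trans ?_
      rw [norm_mul, norm_mul]
      exact add_le_add (mul_le_mul_of_nonneg_right hln (norm_nonneg _))
        (mul_le_mul h1A h10 (norm_nonneg _) (by positivity))
    rw [norm_mul] at h4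
    have h6 : 2 * u * ‖K 0 0‖ ≤ 2 * u ^ 2 * (‖A‖ * ‖K 0 0‖) := by
      have h7 : 0 ≤ 2 * u * ‖K 0 0‖ := by positivity
      calc 2 * u * ‖K 0 0‖ = (2 * u * ‖K 0 0‖) * 1 := by ring
        _ ≤ (2 * u * ‖K 0 0‖) * (‖A‖ * u) := mul_le_mul_of_nonneg_left hAu h7
        _ = 2 * u ^ 2 * (‖A‖ * ‖K 0 0‖) := by ring
    have h8 : 3 * (‖A‖ * u) * (6 * u * ‖K 0 0‖) = 18 * u ^ 2 * (‖A‖ * ‖K 0 0‖) := by ring
    have h9 : 0 ≤ ‖A‖ * ‖K 0 0‖ := by positivity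
    have h10 : 20 * u ^ 2 * (‖A‖ * ‖K 0 0‖) ≤ 1 / 10 * (‖A‖ * ‖K 0 0‖) :=
      mul_le_mul_of_nonneg_right (by linarith) h9
    linarith
  refine ⟨?_, ?_⟩
  · have h3 : M * 1 ≤ ‖A‖ * ‖K 0 0‖ := mul_le_mul hA h00 zero_le_one hA0.le
    linarith
  · rw [Matrix.trace_fin_two, e00, e11]
    rcases eq_or_ne L [] with hLe | hLe
    · have hK1 : K = 1 := by rw [hK, hLe, KK_nil]
      have h3 : -l ^ 2 - 2 + (K 0 0 + (A * K 0 1 + (1 + l * A) * K 1 1)) =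
          -(l * (l * K 0 0 - (A * K 0 0 + (1 + l * A) * K 1 0))) := by
        rw [hK1]; simp; ring
      rw [h3, norm_neg, norm_mul, ← e10, ← e00]
      have h4 := norm_nonneg (l * XS l A L 0 0 - XS l A L 1 0)
      calc ‖l‖ * ‖l * XS l A L 0 0 - XS l A L 1 0‖ * M =
          (M * ‖l‖) * ‖l * XS l A L 0 0 - XS l A L 1 0‖ := by ring
        _ ≤ 2 * ‖l * XS l A L 0 0 - XS l A L 1 0‖ := mul_le_mul_of_nonneg_right hl h4
        _ ≤ 100 * ‖l * XS l A L 0 0 - XS l A L 1 0‖ := by linarith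
    · have h12 := h11' hLe
      have h3 : ‖-l ^ 2 - 2 + (K 0 0 + (A * K 0 1 + (1 + l * A) * K 1 1))‖ ≤
          (‖l‖ ^ 2 + 2) + (‖K 0 0‖ + (‖A‖ * (6 * u * ‖K 0 0‖) +
            3 * (‖A‖ * u) * (12 * u ^ 2 * ‖K 0 0‖))) := by
        refine (norm_add_le _ _).trans (add_le_add ?_ ?_)
        · refine (norm_sub_le _ _).trans ?_
          rw [norm_neg, norm_pow]
          simp
        · refine (norm_add_le _ _).trans (add_le_add le_rfl ?_)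
          refine (norm_add_le _ _).trans (add_le_add ?_ ?_)
          · rw [norm_mul]
            exact mul_le_mul_of_nonneg_left h01 hA0.le
          · rw [norm_mul]
            exact mul_le_mul h1A h12 (norm_nonneg _) (by positivity)
      have h9 : 0 ≤ ‖A‖ * ‖K 0 0‖ := by positivity
      have hl2 : ‖l‖ ^ 2 ≤ 1 := by nlinarith
      have h13 : (‖l‖ ^ 2 + 2) * M ≤ 3 * (‖A‖ * ‖K 0 0‖) := by
        have h14 : M * 1 ≤ ‖A‖ * ‖K 0 0‖ := mul_le_mul hA h00 zero_le_one hA0.le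
        calc (‖l‖ ^ 2 + 2) * M ≤ 3 * M := mul_le_mul_of_nonneg_right (by linarith) hM0.le
          _ ≤ 3 * (‖A‖ * ‖K 0 0‖) := by linarith
      have h15 : ‖K 0 0‖ * M ≤ ‖A‖ * ‖K 0 0‖ := by
        rw [mul_comm]
        exact mul_le_mul_of_nonneg_right hA (norm_nonneg _)
      have h16 : ‖A‖ * (6 * u * ‖K 0 0‖) * M = 6 * (‖A‖ * ‖K 0 0‖) := by
        calc ‖A‖ * (6 * u * ‖K 0 0‖) * M = 6 * (‖A‖ * ‖K 0 0‖) * (M * u) := by ring
          _ = 6 * (‖A‖ * ‖K 0 0‖) := by rw [hMu, mul_one]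
      have h17 : 3 * (‖A‖ * u) * (12 * u ^ 2 * ‖K 0 0‖) * M ≤ ‖A‖ * ‖K 0 0‖ := by
        calc 3 * (‖A‖ * u) * (12 * u ^ 2 * ‖K 0 0‖) * M =
            36 * u ^ 2 * (‖A‖ * ‖K 0 0‖) * (M * u) := by ring
          _ = 36 * u ^ 2 * (‖A‖ * ‖K 0 0‖) := by rw [hMu, mul_one]
          _ ≤ 1 * (‖A‖ * ‖K 0 0‖) := mul_le_mul_of_nonneg_right (by linarith) h9
          _ = ‖A‖ * ‖K 0 0‖ := one_mul _
      have h18 := mul_le_mul_of_nonneg_right h3 hM0.le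
      rw [e00] at key
      have h20 : (‖l‖ ^ 2 + 2 + (‖K 0 0‖ + (‖A‖ * (6 * u * ‖K 0 0‖) +
          3 * (‖A‖ * u) * (12 * u ^ 2 * ‖K 0 0‖)))) * M =
          (‖l‖ ^ 2 + 2) * M + (‖K 0 0‖ * M + (‖A‖ * (6 * u * ‖K 0 0‖) * M +
            3 * (‖A‖ * u) * (12 * u ^ 2 * ‖K 0 0‖) * M)) := by ring
      rw [h20] at h18
      linarith

end Pool.Agent.FB.Z1
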