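import Pool.Agent.FB.Z1.St

/-!
# FB/Z1, module FAC: the exact formula for `X Y` (the matrices are those of `U6/MUT.lean`)
-/

set_option autoImplicit false

open Matrix Pool.Agent.FB.U5

namespace Pool.Agent.FB.Z1

namespace FAC

private noncomputable def A2 (Q a b c d : ℂ) : Matrix (Fin 2) (Fin 2) ℂ :=
  !![a, (Q - 1) * b; c, 1 + (Q - 1) * d]

private noncomputable def A3 (Q a b c d : ℂ) : Matrix (Fin 3) (Fin 3) ℂ :=
  !![a, b, (Q - 2) * b; c, 1 + d, (Q - 2) * d; c, d, 1 + (Q - 2) * d]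

private noncomputable def B3 (Q a b c d : ℂ) : Matrix (Fin 3) (Fin 3) ℂ :=
  !![1 + d, c, (Q - 2) * d; b, a, (Q - 2) * b; d, c, 1 + (Q - 2) * d]

private noncomputable def Z3 (Q w : ℂ) : Matrix (Fin 3) (Fin 3) ℂ :=
  !![1 + w, w, (Q - 2) * w; w, 1 + w, (Q - 2) * w; w, w, 1 + (Q - 2) * w]

private noncomputable def Z2 (Q w : ℂ) : Matrix (Fin 2) (Fin 2) ℂ :=
  !![1 + w, (Q - 1) * w; w, 1 + (Q - 1) * w]

private theorem FAC_A2_mul (Q a b c d a' b' c' d' : ℂ) : A2 Q a b c d * A2 Q a' b' c' d' =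
    A2 Q (a * a' + (Q - 1) * b * c') (a * b' + b * (1 + (Q - 1) * d'))
      (c * a' + (1 + (Q - 1) * d) * c') (c * b' + d + d' + (Q - 1) * d * d') := by
  simp only [A2]
  ext i j
  fin_cases i <;> fin_cases j <;> simp [Matrix.mul_apply, Fin.sum_univ_succ] <;> ring

private theorem FAC_A3_mul (Q a b c d a' b' c' d' : ℂ) : A3 Q a b c d * A3 Q a' b' c' d' =
    A3 Q (a * a' + (Q - 1) * b * c') (a * b' + b * (1 + (Q - 1) * d'))
      (c * a' + (1 + (Q - 1) * d) * c') (c * b' + d + d' + (Q - 1) * d * d') := by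
  simp only [A3]
  ext i j
  fin_cases i <;> fin_cases j <;> simp [Matrix.mul_apply, Fin.sum_univ_succ] <;> ring

private theorem FAC_B3_mul (Q a b c d a' b' c' d' : ℂ) : B3 Q a b c d * B3 Q a' b' c' d' =
    B3 Q (a * a' + (Q - 1) * b * c') (a * b' + b * (1 + (Q - 1) * d'))
      (c * a' + (1 + (Q - 1) * d) * c') (c * b' + d + d' + (Q - 1) * d * d') := by
  simp only [B3]
  ext i j
  fin_cases i <;> fin_cases j <;> simp [Matrix.mul_apply, Fin.sum_univ_succ] <;> ring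

private theorem FAC_T2_eq (Q : ℂ) (t : ℂ × ℂ × ℂ) :
    U5.T2 Q t = Z2 Q ((t.2.2 - 1) / Q) * A2 Q (t.1 * t.2.1) 0 0 0 := by
  simp only [U5.T2, A2, Z2]
  ext i j
  fin_cases i <;> fin_cases j <;>
    simp [Matrix.mul_apply, Fin.sum_univ_succ, Matrix.one_apply, Matrix.diagonal_apply] <;>
    ring

private theorem FAC_T3_eqA (Q : ℂ) (t : ℂ × ℂ × ℂ) (h : t.2.1 = 1) :
    U5.T3 Q t = Z3 Q ((t.2.2 - 1) / Q) * A3 Q t.1 0 0 0 := by
  simp only [U5.T3, A3, Z3, h]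
  ext i j
  fin_cases i <;> fin_cases j <;>
    simp [Matrix.mul_apply, Fin.sum_univ_succ, Matrix.one_apply, Matrix.diagonal_apply] <;>
    ring

private theorem FAC_T3_eqB (Q : ℂ) (t : ℂ × ℂ × ℂ) (h : t.1 = 1) :
    U5.T3 Q t = Z3 Q ((t.2.2 - 1) / Q) * B3 Q t.2.1 0 0 0 := by
  simp only [U5.T3, B3, Z3, h]
  ext i j
  fin_cases i <;> fin_cases j <;>
    simp [Matrix.mul_apply, Fin.sum_univ_succ, Matrix.one_apply, Matrix.diagonal_apply] <;>
    ring

private theorem FAC_Z2_eq (Q w : ℂ) : Z2 Q w = A2 Q (1 + w) w w w := rfl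

private theorem FAC_Z3_eqA (Q w : ℂ) : Z3 Q w = A3 Q (1 + w) w w w := rfl

private theorem FAC_Z3_eqB (Q w : ℂ) : Z3 Q w = B3 Q (1 + w) w w w := rfl

private theorem FAC_listA (Q : ℂ) : ∀ P : List (ℂ × ℂ × ℂ), (∀ u ∈ P, u.2.1 = 1) →
    ∃ a b c d, (P.map (U5.T3 Q)).prod = A3 Q a b c d ∧ (P.map (U5.T2 Q)).prod = A2 Q a b c d
  | [], _ => by
    refine ⟨1, 0, 0, 0, ?_, ?_⟩
    · simp only [A3, List.map_nil, List.prod_nil]
      ext i j
      fin_cases i <;> fin_cases j <;> simp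
    · simp only [A2, List.map_nil, List.prod_nil]
      ext i j
      fin_cases i <;> fin_cases j <;> simp
  | t :: P, h => by
    obtain ⟨a, b, c, d, h1, h2⟩ := FAC_listA Q P fun u hu => h u (List.mem_cons_of_mem _ hu)
    have ht : t.2.1 = 1 := h t List.mem_cons_self
    rw [List.map_cons, List.prod_cons, List.map_cons, List.prod_cons, h1, h2, FAC_T3_eqA Q t ht, FAC_T2_eq,
      ht, mul_one, FAC_Z2_eq, FAC_Z3_eqA, FAC_A3_mul, FAC_A3_mul, FAC_A2_mul, FAC_A2_mul]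
    exact ⟨_, _, _, _, rfl, rfl⟩

private theorem FAC_listB (Q : ℂ) : ∀ P : List (ℂ × ℂ × ℂ), (∀ u ∈ P, u.1 = 1) →
    ∃ a b c d, (P.map (U5.T3 Q)).prod = B3 Q a b c d ∧ (P.map (U5.T2 Q)).prod = A2 Q a b c d
  | [], _ => by
    refine ⟨1, 0, 0, 0, ?_, ?_⟩
    · simp only [B3, List.map_nil, List.prod_nil]
      ext i j
      fin_cases i <;> fin_cases j <;> simp
    · simp only [A2, List.map_nil, List.prod_nil]
      ext i j
      fin_cases i <;> fin_cases j <;> simp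
  | t :: P, h => by
    obtain ⟨a, b, c, d, h1, h2⟩ := FAC_listB Q P fun u hu => h u (List.mem_cons_of_mem _ hu)
    have ht : t.1 = 1 := h t List.mem_cons_self
    rw [List.map_cons, List.prod_cons, List.map_cons, List.prod_cons, h1, h2, FAC_T3_eqB Q t ht, FAC_T2_eq,
      ht, one_mul, FAC_Z2_eq, FAC_Z3_eqB, FAC_B3_mul, FAC_B3_mul, FAC_A2_mul, FAC_A2_mul]
    exact ⟨_, _, _, _, rfl, rfl⟩


private theorem XX_A (Q : ℂ) (s : ℂ × ℂ × ℂ) (P : List (ℂ × ℂ × ℂ)) (a b c d : ℂ)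
    (h : (P.map (U5.T2 Q)).prod = A2 Q a b c d) :
    XX Q s P = A2 Q (s.1 * s.2.1 * a) (s.1 * s.2.1 * b) c d := by
  rw [XX, h, FAC_T2_eq, FAC_Z2_eq, FAC_A2_mul, FAC_A2_mul]
  simp only [sub_self, zero_div]
  congr 1 <;> ring

/-- the polynomial identity -/
private theorem core (Q a b c d a' b' c' d' z z' : ℂ) (hQ : Q ≠ 0) :
    (Q - 1) * ((Q ^ 2 - 3 * Q + 1) -
        (1 - Q) * (Z3 Q ((z - 1) / Q) * A3 Q a b c d *
          (Z3 Q ((z' - 1) / Q) * B3 Q a' b' c' d')).trace +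
        (Z2 Q ((z - 1) / Q) * A2 Q a b c d * (Z2 Q ((z' - 1) / Q) * A2 Q a' b' c' d')).trace) =
      Q * (FF Q (A2 Q a b c d) * FF Q (A2 Q a' b' c' d') +
        (Q - 1) * (z * z') * (GG Q (A2 Q a b c d) * GG Q (A2 Q a' b' c' d'))) := by
  rw [FAC_Z3_eqA Q, FAC_Z3_eqB Q, FAC_Z2_eq, FAC_Z2_eq]
  simp only [FAC_A3_mul, FAC_B3_mul, FAC_A2_mul]
  simp only [FF, GG, A3, B3, A2, Matrix.trace_fin_two, Matrix.trace_fin_three, Matrix.mul_apply,
    Fin.sum_univ_three, Matrix.of_apply, Matrix.cons_val_zero, Matrix.cons_val',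
    Matrix.cons_val_one, Matrix.cons_val]
  field_simp
  ring

end FAC

/-- **Module FAC** -/
theorem thm_Fac : St_Fac := by
  constructor
  · intro Q s t P R hQ hP hR
    have hs : s.2.1 = 1 := hP s List.mem_cons_self
    have ht : t.1 = 1 := hR t List.mem_cons_self
    obtain ⟨a, b, c, d, h1, h2⟩ := FAC.FAC_listA Q P fun u hu => hP u (List.mem_cons_of_mem _ hu)
    obtain ⟨a', b', c', d', h3, h4⟩ :=
      FAC.FAC_listB Q R fun u hu => hR u (List.mem_cons_of_mem _ hu)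
    rw [FAC.XX_A Q s P a b c d h2, FAC.XX_A Q t R a' b' c' d' h4]
    have e1 := FAC.FAC_T3_eqA Q s hs
    have e2 := FAC.FAC_T3_eqB Q t ht
    have e3 : U5.T2 Q s = FAC.Z2 Q ((s.2.2 - 1) / Q) * FAC.A2 Q s.1 0 0 0 := by
      rw [FAC.FAC_T2_eq, hs, mul_one]
    have e4 : U5.T2 Q t = FAC.Z2 Q ((t.2.2 - 1) / Q) * FAC.A2 Q t.2.1 0 0 0 := by
      rw [FAC.FAC_T2_eq, ht, one_mul]
    have h := FAC.core Q (s.1 * a) (s.1 * b) c d (t.2.1 * a') (t.2.1 * b') c' d' s.2.2 t.2.2 hQ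
    have k1 : FAC.A3 Q s.1 0 0 0 * FAC.A3 Q a b c d = FAC.A3 Q (s.1 * a) (s.1 * b) c d := by
      rw [FAC.FAC_A3_mul]
      congr 1 <;> ring
    have k2 : FAC.B3 Q t.2.1 0 0 0 * FAC.B3 Q a' b' c' d' =
        FAC.B3 Q (t.2.1 * a') (t.2.1 * b') c' d' := by
      rw [FAC.FAC_B3_mul]
      congr 1 <;> ring
    have k3 : FAC.A2 Q s.1 0 0 0 * FAC.A2 Q a b c d = FAC.A2 Q (s.1 * a) (s.1 * b) c d := by
      rw [FAC.FAC_A2_mul]
      congr 1 <;> ring
    have k4 : FAC.A2 Q t.2.1 0 0 0 * FAC.A2 Q a' b' c' d' =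
        FAC.A2 Q (t.2.1 * a') (t.2.1 * b') c' d' := by
      rw [FAC.FAC_A2_mul]
      congr 1 <;> ring
    rw [hs, ht, mul_one, one_mul, ← h]
    rw [U5.EE, List.map_append, List.map_append, List.map_cons, List.map_cons, List.map_cons,
      List.map_cons, List.prod_append, List.prod_append, List.prod_cons, List.prod_cons,
      List.prod_cons, List.prod_cons, h1, h2, h3, h4, e1, e2, e3, e4, ← k1, ← k2, ← k3, ← k4]
    simp only [mul_assoc]
  · intro Q L hQ hL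
    rcases hL with hL | hL
    · obtain ⟨a, b, c, d, h1, h2⟩ := FAC.FAC_listA Q L hL
      rw [U5.EE, h1, h2]
      simp only [FAC.A3, FAC.A2, Matrix.trace_fin_two, Matrix.trace_fin_three, Matrix.of_apply,
        Matrix.cons_val_zero, Matrix.cons_val_one, Matrix.cons_val]
      ring
    · obtain ⟨a, b, c, d, h1, h2⟩ := FAC.FAC_listB Q L hL
      rw [U5.EE, h1, h2]
      simp only [FAC.B3, FAC.A2, Matrix.trace_fin_two, Matrix.trace_fin_three, Matrix.of_apply,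
        Matrix.cons_val_zero, Matrix.cons_val_one, Matrix.cons_val]
      ring

end Pool.Agent.FB.Z1
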