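import Pool.Agent.FB.Z1.St
import Pool.Agent.FB.U7.FIN

/-!
# FB/Z1: closed 4-braids with long syllables: the assembly
-/

set_option autoImplicit false

open Matrix LaurentPolynomial Pool.RU Pool.Agent.FB.U5

namespace Pool.Agent.FB.Z1

theorem coeffSum_one : SPT.coeffSum (1 : LaurentPolynomial ℤ) = 1 := by
  unfold SPT.coeffSum
  have h7 : (1 : LaurentPolynomial ℤ) = AddMonoidAlgebra.single 0 1 := rfl
  have h8 : ((1 : LaurentPolynomial ℤ).coeff).support = {0} := by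
    ext i
    rw [h7]
    simp
  rw [h8, Finset.sum_singleton, h7]
  simp

theorem tot_rot {β γ : List (ℤ × ℤ × ℤ)} (h : β ~r γ) : W8.tot β = W8.tot γ := by
  unfold W8.tot
  exact (h.perm.map _).sum_eq

theorem one_rot {β γ : List (ℤ × ℤ × ℤ)} (h : β ~r γ) (hβ : One β) : One γ := by
  intro q h0 h1
  have h2 := hβ q h0 h1
  rwa [U6.MUT.EE_rot (h.map (wts (q : ℂ))), tot_rot h] at h2

theorem BG_rot {β γ : List (ℤ × ℤ × ℤ)} {S : ℝ} (h : β ~r γ) (hβ : BG S β) : BG S γ := by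
  intro ε hε M T hM u hu hQ
  have h2 : ∀ v : ℂ, U5.EE (2 - v - v⁻¹) ((β.map (sc ε)).map (wts v)) =
      U5.EE (2 - v - v⁻¹) ((γ.map (sc ε)).map (wts v)) := fun v => U6.MUT.EE_rot ((h.map _).map _)
  have h3 := hβ ε hε M T (fun v hv => by rw [h2 v]; exact hM v hv) u hu hQ
  rwa [h2 u] at h3

/-- the assembly -/
theorem thm_Fin (hK : St_KeyQ) (hD : St_D) (hC : St_C) (hE : St_E) (hB : St_B) :
    St_FourBraids6 := by
  obtain ⟨N₅, hN₅, h5⟩ := U7.thm_FourBraids5
  obtain ⟨N₁, hd⟩ := hD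
  obtain ⟨N₂, hb⟩ := hB
  refine ⟨N₅ + N₁ + N₂ + 2, by omega, ?_⟩
  intro N hN β hne hl hop o ho hf
  have hone := hK β o ho hf
  have hBG : BG 1 β := by
    intro ε hε M T hM u hu hQ
    have h := U6.thm_SumGen β o ho ε hε M T hM u hu hQ
    rw [hf, coeffSum_one] at h
    simpa using h
  by_cases h1 : ∃ t ∈ β, t.1 ≠ 0
  swap
  · push Not at h1
    exact hE β (Or.inr h1) hone
  by_cases h3 : ∃ t ∈ β, t.2.1 ≠ 0
  swap
  · push Not at h3
    exact hE β (Or.inl h3) hone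
  by_cases ht : ∀ s t P R, β ~r s :: P ++ t :: R → (∀ u ∈ s :: P, u.2.1 = 0) →
      (∀ u ∈ t :: R, u.1 = 0) → (N : ℤ) ≤ |s.2.2 + t.2.2|
  · have h := h5 N (by omega) β ⟨hl, h1, h3, hop, ht⟩ o ho
    rw [hf, coeffSum_one, mul_one] at h
    have h4 : (N₅ : ℤ) < N := by exact_mod_cast (by omega : N₅ < N)
    have h6 : β.length ≠ 0 := (List.length_pos_iff.2 hne).ne'
    have h7 := pow_lt_pow_left₀ h4 (by positivity) h6
    exact absurd h (not_le.2 h7)
  · push Not at ht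
    obtain ⟨s, t, P, R, hr, hX, hY, hlt⟩ := ht
    have hmem : ∀ u, u ∈ s :: P ++ t :: R → u ∈ β := fun u hu => hr.perm.mem_iff.2 hu
    have cX : ∀ u ∈ s :: P, (N : ℤ) ≤ |u.1| ∧ u.2.1 = 0 ∧ (N : ℤ) ≤ |u.2.2| := by
      intro u hu
      obtain ⟨a1, a2, -, a4⟩ := hl u (hmem u (List.mem_append_left _ hu))
      have h0 := hX u hu
      refine ⟨?_, h0, a1⟩
      rcases a2 with a2 | a2
      · exact absurd ⟨a2, h0⟩ a4
      · exact a2
    have cY : ∀ u ∈ t :: R, (N : ℤ) ≤ |u.2.1| ∧ u.1 = 0 ∧ (N : ℤ) ≤ |u.2.2| := by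
      intro u hu
      obtain ⟨a1, -, a3, a4⟩ := hl u (hmem u (List.mem_append_right _ hu))
      have h0 := hY u hu
      refine ⟨?_, h0, a1⟩
      rcases a3 with a3 | a3
      · exact absurd ⟨h0, a3⟩ a4
      · exact a3
    have lX : LongX N s P := ⟨⟨(cX s (by simp)).1, (cX s (by simp)).2.1⟩,
      fun u hu => cX u (List.mem_cons_of_mem _ hu)⟩
    have lY : LongY N t R := ⟨⟨(cY t (by simp)).1, (cY t (by simp)).2.1⟩,
      fun u hu => cY u (List.mem_cons_of_mem _ hu)⟩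
    have hone' := one_rot hr hone
    have hBG' := BG_rot hr hBG
    by_cases h0 : s.2.2 + t.2.2 = 0
    · rcases List.eq_nil_or_concat P with rfl | ⟨P', p, rfl⟩
      · exact (hC s t R h0).1 (by have := lX.1.1; omega) lX.1.2 hY hone'
      · rcases List.eq_nil_or_concat R with rfl | ⟨R', r, rfl⟩
        · have hr2 : (s :: (P' ++ [p]) ++ [t]) ~r (t :: s :: (P' ++ [p])) :=
            List.isRotated_concat t (s :: (P' ++ [p]))
          refine (hC t s (P' ++ [p]) (by rw [add_comm]; exact h0)).2 (by have := lY.1.1; omega) lY.1.2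
            ?_ (one_rot hr2 (by simpa using hone'))
          simpa using hX
        · exact hb N (by omega) s t p r P' R' (by simpa using lX) (by simpa using lY) h0
            (by simpa using hBG')
    · exact hd N (by omega) s t P R lX lY h0 (by exact_mod_cast hlt.le) hone'

end Pool.Agent.FB.Z1
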