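import Pool.Agent.FB.Z1.St
import Pool.Agent.FB.U7.SIM

/-!
# FB/Z1, modules LIM and E: the limit `q → 1`
-/

set_option autoImplicit false

open Matrix LaurentPolynomial Pool.RU Pool.Agent.FB.U5

namespace Pool.Agent.FB.Z1

namespace ModLim

open Filter Topology

/-- the scale: `l = (q - 1) / √q` -/
noncomputable def ll (q : ℝ) : ℝ := (q - 1) / Real.sqrt q

/-- `(q ^ a - 1) / l` -/
noncomputable def hh (a : ℤ) (q : ℝ) : ℂ := (((q ^ a - 1) / ll q : ℝ) : ℂ)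

lemma ll_ne {q : ℝ} (hq : 0 < q) (hq1 : q ≠ 1) : ll q ≠ 0 :=
  div_ne_zero (sub_ne_zero.2 hq1) (Real.sqrt_pos.2 hq).ne'

lemma ll_sq {q : ℝ} (hq : 0 < q) : -(ll q) ^ 2 = 2 - q - 1 / q := by
  unfold ll
  rw [div_pow, Real.sq_sqrt hq.le]
  field_simp
  ring

lemma lim_ll : Tendsto ll (𝓝[>] (1 : ℝ)) (𝓝 0) := by
  have h1 : ContinuousAt ll 1 := by
    unfold ll
    refine ContinuousAt.div (by fun_prop) (by fun_prop) ?_
    rw [Real.sqrt_one]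
    exact one_ne_zero
  have h2 := h1.tendsto
  have h3 : ll 1 = 0 := by
    unfold ll
    simp
  rw [h3] at h2
  exact h2.mono_left nhdsWithin_le_nhds

lemma lim_hh (a : ℤ) : Tendsto (hh a) (𝓝[>] (1 : ℝ)) (𝓝 (a : ℂ)) := by
  have h2 : HasDerivAt (fun q : ℝ => q ^ a) ((a : ℝ) * 1 ^ (a - 1)) 1 :=
    hasDerivAt_zpow a 1 (Or.inl one_ne_zero)
  rw [_root_.one_zpow, mul_one] at h2
  have h3 := (hasDerivAt_iff_tendsto_slope.1 h2).mono_left (nhdsWithin_mono (1 : ℝ)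
    (fun x (hx : x ∈ Set.Ioi (1 : ℝ)) => ne_of_gt hx : Set.Ioi (1 : ℝ) ⊆ {1}ᶜ))
  have h4 : Tendsto (fun q : ℝ => Real.sqrt q) (𝓝[>] (1 : ℝ)) (𝓝 1) := by
    have h5 := (Real.continuous_sqrt.tendsto (1 : ℝ)).mono_left
      (nhdsWithin_le_nhds (s := Set.Ioi (1 : ℝ)))
    rw [Real.sqrt_one] at h5
    exact h5
  have h6 := h3.mul h4
  rw [mul_one] at h6
  have h7 : Tendsto (fun q : ℝ => (q ^ a - 1) / ll q) (𝓝[>] (1 : ℝ)) (𝓝 (a : ℝ)) := by
    refine h6.congr' ?_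
    filter_upwards [self_mem_nhdsWithin] with q hq
    have hq1 : (1 : ℝ) < q := hq
    have hne : q - 1 ≠ 0 := by linarith
    have hs : Real.sqrt q ≠ 0 := (Real.sqrt_pos.2 (by linarith)).ne'
    rw [slope_def_field, _root_.one_zpow]
    unfold ll
    field_simp
  have h8 := (Complex.continuous_ofReal.tendsto (a : ℝ)).comp h7
  have h9 : (((a : ℤ) : ℝ) : ℂ) = (a : ℂ) := by push_cast; rfl
  rw [h9] at h8
  exact h8

/-- the scaled block of `t` -/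
noncomputable def sc (q : ℝ) (t : ℤ × ℤ × ℤ) : ℂ × ℂ × ℂ := (hh t.1 q, hh t.2.1 q, hh t.2.2 q)

lemma wt_sc {q : ℝ} (hq : 0 < q) (hq1 : q ≠ 1) (t : ℤ × ℤ × ℤ) :
    U7.wt (ll q : ℂ) (sc q t) = wts (q : ℂ) t := by
  have h : ∀ a : ℤ, 1 + (ll q : ℂ) * hh a q = (q : ℂ) ^ a := by
    intro a
    have h1 : 1 + ll q * ((q ^ a - 1) / ll q) = q ^ a := by
      rw [mul_div_cancel₀ _ (ll_ne hq hq1)]
      ring
    unfold hh
    exact_mod_cast congrArg (fun x : ℝ => (x : ℂ)) h1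
  unfold U7.wt sc wts
  simp only [h]

/-- the integer matrix -/
def Mi (t : ℤ × ℤ × ℤ) : Matrix (Fin 2) (Fin 2) ℤ :=
  !![1 - t.2.2 * (t.1 + t.2.1), -t.2.2; t.1 + t.2.1, 1]

lemma lim_M2 (t : ℤ × ℤ × ℤ) : Tendsto (fun q : ℝ => U7.M2 (ll q : ℂ) (sc q t)) (𝓝[>] (1 : ℝ))
    (𝓝 ((Mi t).map (Int.castRingHom ℂ))) := by
  have hl : Tendsto (fun q : ℝ => (ll q : ℂ)) (𝓝[>] (1 : ℝ)) (𝓝 0) := by
    have h1 := (Complex.continuous_ofReal.tendsto (0 : ℝ)).comp lim_ll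
    rw [Complex.ofReal_zero] at h1
    exact h1
  have h1 := lim_hh t.1
  have h2 := lim_hh t.2.1
  have h3 := lim_hh t.2.2
  have hU : Tendsto (fun q : ℝ => U7.U (ll q : ℂ) (sc q t)) (𝓝[>] (1 : ℝ))
      (𝓝 ((t.1 : ℂ) + (t.2.1 : ℂ) + 0 * (t.1 : ℂ) * (t.2.1 : ℂ))) :=
    (h1.add h2).add ((hl.mul h1).mul h2)
  refine tendsto_pi_nhds.2 fun i => tendsto_pi_nhds.2 fun j => ?_
  fin_cases i <;> fin_cases j
  · have h := ((hl.mul h3).const_add 1).sub (h3.mul hU)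
    have e : ((Mi t).map (Int.castRingHom ℂ)) 0 0 =
        1 + 0 * (t.2.2 : ℂ) - (t.2.2 : ℂ) * ((t.1 : ℂ) + (t.2.1 : ℂ) + 0 * (t.1 : ℂ) * (t.2.1 : ℂ)) := by
      simp [Mi]
    exact (e ▸ h :)
  · have h := (h3.mul ((hl.mul hU).const_add 1)).neg
    have e : ((Mi t).map (Int.castRingHom ℂ)) 0 1 =
        -((t.2.2 : ℂ) * (1 + 0 * ((t.1 : ℂ) + (t.2.1 : ℂ) + 0 * (t.1 : ℂ) * (t.2.1 : ℂ)))) := by
      simp [Mi]
    exact (e ▸ h :)
  · have e : ((Mi t).map (Int.castRingHom ℂ)) 1 0 =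
        ((t.1 : ℂ) + (t.2.1 : ℂ) + 0 * (t.1 : ℂ) * (t.2.1 : ℂ)) := by
      simp [Mi]
    exact (e ▸ hU :)
  · have h := (hl.mul hU).const_add 1
    have e : ((Mi t).map (Int.castRingHom ℂ)) 1 1 =
        1 + 0 * ((t.1 : ℂ) + (t.2.1 : ℂ) + 0 * (t.1 : ℂ) * (t.2.1 : ℂ)) := by
      simp [Mi]
    exact (e ▸ h :)

lemma lim_prod (L : List (ℤ × ℤ × ℤ)) :
    Tendsto (fun q : ℝ => (L.map fun t => U7.M2 (ll q : ℂ) (sc q t)).prod) (𝓝[>] (1 : ℝ))
      (𝓝 (((L.map Mi).prod).map (Int.castRingHom ℂ))) := by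
  induction L with
  | nil =>
    simp only [List.map_nil, List.prod_nil]
    have h : ((1 : Matrix (Fin 2) (Fin 2) ℤ).map (Int.castRingHom ℂ)) = 1 :=
      Matrix.map_one _ (map_zero _) (map_one _)
    rw [h]
    exact tendsto_const_nhds
  | cons t L ih =>
    simp only [List.map_cons, List.prod_cons]
    rw [Matrix.map_mul]
    exact (lim_M2 t).mul ih

lemma lim_Q : Tendsto (fun q : ℝ => ((((2 - q - 1 / q : ℝ)) : ℂ))) (𝓝[>] (1 : ℝ)) (𝓝 0) := by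
  have h1 : ContinuousAt (fun q : ℝ => (2 - q - 1 / q : ℝ)) 1 := by
    have : ContinuousAt (fun q : ℝ => 1 / q) 1 := continuousAt_const.div continuousAt_id one_ne_zero
    exact (continuousAt_const.sub continuousAt_id).sub this
  have h2 : Tendsto (fun q : ℝ => (2 - q - 1 / q : ℝ)) (𝓝[>] (1 : ℝ)) (𝓝 0) := by
    have h3 := h1.tendsto
    have h5 : (2 - 1 - 1 / 1 : ℝ) = 0 := by norm_num
    rw [h5] at h3
    exact h3.mono_left nhdsWithin_le_nhds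
  have h4 := (Complex.continuous_ofReal.tendsto (0 : ℝ)).comp h2
  rw [Complex.ofReal_zero] at h4
  exact h4

end ModLim

open Filter Topology ModLim

/-- **Module LIM** -/
theorem thm_Lim : St_Lim := by
  intro L
  refine ⟨(L.map Mi).prod.trace, ?_⟩
  have h1 : Tendsto (fun q : ℝ => (L.map fun t => U7.M2 (ll q : ℂ) (sc q t)).prod.trace)
      (𝓝[>] (1 : ℝ)) (𝓝 ((((L.map Mi).prod).map (Int.castRingHom ℂ)).trace)) :=
    ((continuous_id.matrix_trace).tendsto _).comp (lim_prod L)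
  have h2 : ((((L.map Mi).prod).map (Int.castRingHom ℂ)).trace) =
      (((L.map Mi).prod.trace : ℤ) : ℂ) := by
    unfold Matrix.trace
    simp
  rw [h2] at h1
  refine h1.congr' ?_
  filter_upwards [self_mem_nhdsWithin] with q hq
  have hq1 : (1 : ℝ) < q := hq
  have hq0 : (0 : ℝ) < q := by linarith
  have h3 := (U7.thm_Sim (ll q : ℂ) (L.map (ModLim.sc q)) (by
    exact_mod_cast ll_ne hq0 hq1.ne')).2
  have h4 : (U7.wt (ll q : ℂ) ∘ ModLim.sc q) = wts (q : ℂ) := funext fun t => wt_sc hq0 hq1.ne' t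
  have h6 : (L.map (ModLim.sc q)).map (U7.wt (ll q : ℂ)) = L.map (wts (q : ℂ)) := by
    rw [List.map_map, h4]
  have h7 : (L.map (ModLim.sc q)).map (U7.M2 (ll q : ℂ)) =
      L.map fun t => U7.M2 (ll q : ℂ) (ModLim.sc q t) := by
    rw [List.map_map]
    rfl
  rw [h6, h7] at h3
  have h5 : (-(ll q : ℂ) ^ 2) = (((2 - q - 1 / q : ℝ)) : ℂ) := by
    rw [← ll_sq hq0]
    push_cast
    ring
  rw [h5] at h3
  exact h3

/-- **Module E** -/
theorem thm_E : St_Fac → St_Lim → St_E := by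
  intro hFac hLim L hL hOne
  obtain ⟨n, hn⟩ := hLim L
  have hA : Tendsto (fun q : ℝ => (1 - q) ^ 2 / q * ‖((((2 - q - 1 / q : ℝ)) : ℂ) - 2 +
      ((L.map (wts (q : ℂ))).map (U5.T2 (((2 - q - 1 / q : ℝ)) : ℂ))).prod.trace)‖ ^ 2)
      (𝓝[>] (1 : ℝ)) (𝓝 (0 * ‖(0 : ℂ) - 2 + (n : ℂ)‖ ^ 2)) := by
    refine Tendsto.mul ?_ (((lim_Q.sub_const 2).add hn).norm.pow 2)
    have h1 : ContinuousAt (fun q : ℝ => (1 - q) ^ 2 / q) 1 :=
      ContinuousAt.div (by fun_prop) continuousAt_id one_ne_zero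
    have h2 := h1.tendsto
    have h3 : ((1 : ℝ) - 1) ^ 2 / 1 = 0 := by norm_num
    rw [h3] at h2
    exact h2.mono_left nhdsWithin_le_nhds
  have hB : Tendsto (fun q : ℝ => q ^ (-W8.tot L)) (𝓝[>] (1 : ℝ)) (𝓝 1) := by
    have h3 := (continuousAt_zpow₀ (1 : ℝ) (-W8.tot L) (Or.inl one_ne_zero)).tendsto
    rw [_root_.one_zpow] at h3
    exact h3.mono_left nhdsWithin_le_nhds
  have hC : (fun q : ℝ => (1 - q) ^ 2 / q * ‖((((2 - q - 1 / q : ℝ)) : ℂ) - 2 +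
      ((L.map (wts (q : ℂ))).map (U5.T2 (((2 - q - 1 / q : ℝ)) : ℂ))).prod.trace)‖ ^ 2)
      =ᶠ[𝓝[>] (1 : ℝ)] fun q : ℝ => q ^ (-W8.tot L) := by
    filter_upwards [self_mem_nhdsWithin] with q hq
    have hq1 : (1 : ℝ) < q := hq
    have hq0 : (0 : ℝ) < q := by linarith
    have h1 := hOne q hq0 hq1.ne'
    have h2 : (2 - q - 1 / q : ℝ) = -((1 - q) ^ 2 / q) := by
      field_simp
      ring
    have h3 : 0 < (1 - q) ^ 2 / q :=
      div_pos (pow_two_pos_of_ne_zero (sub_ne_zero.2 (ne_of_gt hq1).symm)) hq0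
    have h4 : ((((2 - q - 1 / q : ℝ)) : ℂ)) ≠ 0 := by
      intro h
      have h5 : (2 - q - 1 / q : ℝ) = 0 := by exact_mod_cast h
      linarith
    have h5 := hFac.2 (((2 - q - 1 / q : ℝ)) : ℂ) (L.map (wts (q : ℂ))) h4 (by
      rcases hL with h | h
      · left
        intro u hu
        obtain ⟨v, hv, rfl⟩ := List.mem_map.1 hu
        show (q : ℂ) ^ v.2.1 = 1
        rw [h v hv, zpow_zero]
      · right
        intro u hu
        obtain ⟨v, hv, rfl⟩ := List.mem_map.1 hu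
        show (q : ℂ) ^ v.1 = 1
        rw [h v hv, zpow_zero])
    rw [h5, norm_mul, mul_pow] at h1
    have h6 : ‖((((2 - q - 1 / q : ℝ)) : ℂ))‖ = (1 - q) ^ 2 / q := by
      rw [Complex.norm_real, h2, norm_neg, Real.norm_eq_abs, abs_of_pos h3]
    rw [h6] at h1
    refine mul_left_cancel₀ h3.ne' ?_
    rw [← h1]
    ring
  have hD := tendsto_nhds_unique (hA.congr' hC) hB
  rw [zero_mul] at hD
  exact zero_ne_one hD

end Pool.Agent.FB.Z1
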