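import Pool.Agent.FB.Z1.St
import Pool.Agent.FB.U6.FIN
import Pool.Agent.FB.U6.XY

/-!
# FB/Z1/OLD: `FourBraids4` for a word with a double block and an abstract number (helper85)
-/

set_option autoImplicit false

open Matrix Pool.RU

namespace Pool.Agent.FB.Z1

open Pool.Agent.FB.U5 (TB IsTurn pairs sc top wts v N lam orb Near zpow_cases adm_x adm_z
  norm_sub_large norm_sub_small zpow_eq_one TB_mem point2)

section

open Pool.Agent.FB.U6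

/-- `U6.part2` with the abstract bound `BG` -/
theorem OLD_part2 : ∃ N₀ : ℕ, 0 < N₀ ∧ ∀ N : ℕ, N₀ ≤ N → ∀ β : List (ℤ × ℤ × ℤ),
    Ok2 N β → (∃ t ∈ β, (0 < t.1 ∧ 0 < t.2.1) ∨ (t.1 < 0 ∧ t.2.1 < 0)) →
    ∀ S : ℝ, 0 ≤ S → BG S β →
    (N : ℝ) ^ (2 * β.length - 1) ≤ (N₀ : ℝ) ^ (2 * β.length - 1) * S := by
  obtain ⟨κ, C, Q₀, hQ₀, hG⟩ := thm_Loc (2 / 5) (by norm_num) (by norm_num)
  obtain ⟨C', Q₁, hQ₁, hC', hRat⟩ := thm_Ratio (2 / 5) κ C (by norm_num)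
  have hC : 1 ≤ C := by
    have h1 : ‖((Q₀ / 2 : ℝ) : ℂ)‖ = Q₀ / 2 := by
      rw [Complex.norm_real, Real.norm_of_nonneg (by linarith)]
    exact (hG ((Q₀ / 2 : ℝ) : ℂ) (by rw [h1]; linarith) (by rw [h1]; linarith)).one_le
  have hC0 : 0 < C := by linarith
  obtain ⟨K₀, hK₀⟩ : ∃ K₀ : ℝ, K₀ = 16 * (C' + 2) := ⟨_, rfl⟩
  have hK₀1 : 48 ≤ K₀ := by linarith
  obtain ⟨B, hB⟩ : ∃ B : ℝ, B = 8 * K₀ ^ 2 := ⟨_, rfl⟩
  have hBp : 0 < B := by
    rw [hB]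
    positivity
  obtain ⟨K, hK⟩ : ∃ K : ℝ, K = 1 / Q₀ + 1 / Q₁ + 100 * C' + 40 * C + 100 := ⟨_, rfl⟩
  have small : ∀ q : ℝ, 0 < q → q * K < 1 → q < Q₀ ∧ q < Q₁ ∧ C' * q ≤ 1 / 100 ∧
      40 * C * q ≤ 1 ∧ q ≤ 1 / 100 := by
    intro q hq h
    have p1 : 0 < 1 / Q₀ := by positivity
    have p2 : 0 < 1 / Q₁ := by positivity
    have s1 : ∀ x : ℝ, x ≤ K → q * x < 1 := fun x hx =>
      lt_of_le_of_lt (mul_le_mul_of_nonneg_left hx hq.le) h
    have r1 := s1 (1 / Q₀) (by rw [hK]; linarith)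
    have r2 := s1 (1 / Q₁) (by rw [hK]; linarith)
    have r3 := s1 (100 * C') (by rw [hK]; linarith)
    have r4 := s1 (40 * C) (by rw [hK]; linarith)
    have r5 := s1 100 (by rw [hK]; linarith)
    refine ⟨?_, ?_, by linarith, by linarith, by linarith⟩
    · rw [mul_one_div, div_lt_one hQ₀] at r1
      exact r1
    · rw [mul_one_div, div_lt_one hQ₁] at r2
      exact r2
  have hKp : 0 < K := by
    rw [hK]
    positivity
  obtain ⟨N₀, hN₀⟩ := exists_nat_ge (B * K + 40 * K₀ + B * C / (3 / 20) + 1)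
  have hBC : 0 < B * C / (3 / 20) := by positivity
  have hBK : 0 < B * K := by positivity
  refine ⟨N₀, by
    have : (0 : ℝ) < N₀ := by linarith
    exact_mod_cast this, ?_⟩
  intro N hN β hβ hd S hS0 hBG
  have hNN : (N₀ : ℝ) ≤ N := by exact_mod_cast hN
  have hNp : (0 : ℝ) < N := by linarith
  have hNp' : 0 < N := by exact_mod_cast hNp
  have hNZ : (0 : ℤ) < N := by exact_mod_cast hNp'
  obtain ⟨m, hm⟩ : ∃ m : ℕ, m = β.length := ⟨_, rfl⟩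
  have hne : β ≠ [] := by
    obtain ⟨t, ht, -⟩ := hd
    exact List.ne_nil_of_mem ht
  have hm1 : 1 ≤ m := by
    rw [hm]
    exact List.length_pos_iff.2 hne
  obtain ⟨ε, hε, hP, hM⟩ := side2 β hd
  obtain ⟨γ, hγ⟩ : ∃ γ, γ = β.map (sc ε) := ⟨_, rfl⟩
  have hlen : γ.length = m := by
    rw [hγ, List.length_map, hm]
  have hγne : γ ≠ [] := by
    rw [hγ]
    simpa using hne
  have hok : Ok2 N γ := by
    rw [hγ]
    exact ok2_sc hβ hε
  rw [← hγ] at hP hM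
  have hTB : ∀ b ∈ TB γ, (N : ℤ) ≤ |b| := by
    intro b hb
    obtain ⟨t, ht, rfl⟩ := TB_mem hb
    exact (hok t ht).1
  -- from the bracket to the claim
  have fin : ∀ (R q : ℝ), 2 - (R : ℂ) - (R : ℂ)⁻¹ = -(q : ℂ) → 1 ≤ R → R ^ 2 ≤ 3 → 0 < q →
      12 / (N : ℝ) ^ 2 ≤ q → q ≤ B / (N : ℝ) ^ 2 → q ≤ 1 / 100 → 40 * C * q ≤ 1 →
      1 / 2 * gg2 (γ.map (wts (R : ℂ))) ≤
        (‖U5.EE (-(q : ℂ)) (γ.map (wts (R : ℂ)))‖ + 2) * (C * q) ^ m →
      (N : ℝ) ^ (2 * β.length - 1) ≤ (N₀ : ℝ) ^ (2 * β.length - 1) * S := by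
    intro R q hQ hR1 hR3 hqp hq12 hqB hq1 hCq h1
    have nq : ‖(-(q : ℂ))‖ = q := by
      rw [norm_neg, Complex.norm_real, Real.norm_of_nonneg hqp.le]
    have nR : ‖(R : ℂ)‖ = R := by
      rw [Complex.norm_real, Real.norm_of_nonneg (by linarith)]
    obtain ⟨M, hM'⟩ := thm_Grow.2 γ fun t ht => (hok t ht).2.2.2.2
    have hsum := hBG ε hε M (top2 γ + 2) (by
      intro u hu
      rw [← hγ]
      exact hM' u hu) (R : ℂ) (by rw [nR]; exact hR1) (by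
        rw [hQ]
        apply norm_pos_iff.1
        rw [nq]
        exact hqp)
    rw [hQ, ← hγ, nR, nq] at hsum
    obtain ⟨g1, g2⟩ := gg2_ge (u := (R : ℂ)) (by rw [nR]; exact hR1) γ
    rw [nR] at g1 g2
    have hpow : R ^ (top2 γ + 2) = R ^ top2 γ * R ^ 2 := by
      rw [zpow_add₀ (by linarith)]
      norm_cast
    rw [hpow] at hsum
    have hsmall : 2 * (C * q) ^ m ≤ 1 / 4 := by
      have h5 : (C * q) ^ m ≤ (C * q) ^ 1 :=
        pow_le_pow_of_le_one (by positivity) (by linarith) hm1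
      rw [pow_one] at h5
      linarith
    have key := coeff_lower2 (T := R ^ top2 γ) (B := B) hNp' hC0 hqp hR3 g2 g1 hS0 h1 hsum hsmall
      hq12 hqB (by linarith)
    have k1 : ((N : ℝ) ^ 2) ^ m = N * (N : ℝ) ^ (2 * m - 1) := by
      rw [← pow_mul, ← pow_succ']
      congr 1
      omega
    rw [k1] at key
    have k2 : 3 / 20 * (N : ℝ) ^ (2 * m - 1) ≤ S * (B * C) ^ m := by
      have : N * (3 / 20 * (N : ℝ) ^ (2 * m - 1)) ≤ N * (S * (B * C) ^ m) := by linarith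
      exact le_of_mul_le_mul_left this hNp
    have k3 : (B * C) ^ m ≤ 3 / 20 * (N₀ : ℝ) ^ (2 * m - 1) := by
      have l0 : B * C / (3 / 20) ≤ (N₀ : ℝ) := by
        have : 0 ≤ 40 * K₀ := by linarith
        linarith
      have l1 : (B * C / (3 / 20)) ^ m ≤ (N₀ : ℝ) ^ m := by gcongr
      have l2 : (N₀ : ℝ) ^ m ≤ (N₀ : ℝ) ^ (2 * m - 1) :=
        pow_le_pow_right₀ (by linarith) (by omega)
      have l3 : (3 / 20 : ℝ) ^ m ≤ 3 / 20 := by
        have := pow_le_pow_of_le_one (show (0 : ℝ) ≤ 3 / 20 by norm_num) (by norm_num) hm1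
        rw [pow_one] at this
        exact this
      have l4 : 0 < (3 / 20 : ℝ) ^ m := by positivity
      rw [div_pow, div_le_iff₀ l4] at l1
      calc (B * C) ^ m ≤ (N₀ : ℝ) ^ m * (3 / 20) ^ m := l1
        _ ≤ (N₀ : ℝ) ^ (2 * m - 1) * (3 / 20) := by gcongr
        _ = _ := by ring
    have k4 : (N : ℝ) ^ (2 * m - 1) ≤ (N₀ : ℝ) ^ (2 * m - 1) * S := by
      have : 3 / 20 * (N : ℝ) ^ (2 * m - 1) ≤ 3 / 20 * ((N₀ : ℝ) ^ (2 * m - 1) * S) := by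
        calc 3 / 20 * (N : ℝ) ^ (2 * m - 1) ≤ S * (B * C) ^ m := k2
          _ ≤ S * (3 / 20 * (N₀ : ℝ) ^ (2 * m - 1)) := by gcongr
          _ = _ := by ring
      exact le_of_mul_le_mul_left this (by norm_num)
    rw [← hm]
    exact k4
  -- the two points
  obtain ⟨ρ, hρd⟩ : ∃ ρ : ℝ, ρ = K₀ / N := ⟨_, rfl⟩
  have hρ : 0 < ρ := by
    rw [hρd]
    positivity
  have hρ' : ρ ≤ 1 / 40 := by
    rw [hρd, div_le_div_iff₀ hNp (by norm_num)]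
    linarith
  obtain ⟨R, q, hR, hRq, q1, q2⟩ := point2 ρ hρ (by linarith)
  obtain ⟨R₂, q₂, hR₂, hRq₂, q3, q4⟩ := point2 (2 * ρ) (by linarith) (by linarith)
  have hR1 : 1 < R := by
    rw [hR]
    exact Real.one_lt_exp_iff.2 hρ
  have hRR : R₂ = R ^ 2 := by
    rw [hR₂, hR, ← Real.exp_nat_mul]
    norm_num
  have hqq : q₂ = q * (q + 4) := by
    have e1 : ((2 - R - R⁻¹ : ℝ) : ℂ) = ((-q : ℝ) : ℂ) := by
      push_cast
      exact hRq
    have e2 : ((2 - R₂ - R₂⁻¹ : ℝ) : ℂ) = ((-q₂ : ℝ) : ℂ) := by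
      push_cast
      exact hRq₂
    have e3 := Complex.ofReal_injective e1
    have e4 := Complex.ofReal_injective e2
    rw [hRR] at e4
    have e5 : q = R + R⁻¹ - 2 := by linarith
    have e6 : q₂ = R ^ 2 + (R ^ 2)⁻¹ - 2 := by linarith
    rw [e5, e6]
    have hR0 : R ≠ 0 := by linarith
    field_simp
    ring
  have hN2 : (0 : ℝ) < (N : ℝ) ^ 2 := by positivity
  have hqp : 0 < q := lt_of_lt_of_le (by positivity) q1
  have hq12 : 12 / (N : ℝ) ^ 2 ≤ q := by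
    refine le_trans ?_ q1
    rw [hρd, div_pow, ← mul_div_assoc]
    gcongr
    nlinarith
  have hqB : q ≤ B / (N : ℝ) ^ 2 := by
    refine q2.trans ?_
    rw [hρd, div_pow, ← mul_div_assoc, hB]
    gcongr
    norm_num
  have hq₂p : 0 < q₂ := by
    rw [hqq]
    positivity
  have hq₂12 : 12 / (N : ℝ) ^ 2 ≤ q₂ := by
    refine hq12.trans ?_
    rw [hqq]
    nlinarith
  have hq₂B : q₂ ≤ B / (N : ℝ) ^ 2 := by
    refine q4.trans (le_of_eq ?_)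
    rw [hρd, hB]
    ring
  have hqK : ∀ x : ℝ, 0 < x → x ≤ B / (N : ℝ) ^ 2 → x * K < 1 := by
    intro x hx h
    have h1 : B / (N : ℝ) ^ 2 * K < 1 := by
      rw [div_mul_eq_mul_div, div_lt_one hN2]
      have : B * K + 1 ≤ N := by
        have : 0 ≤ 40 * K₀ := by linarith
        linarith
      nlinarith
    have h2 : x * K ≤ B / (N : ℝ) ^ 2 * K := by gcongr
    linarith
  obtain ⟨s1, s2, s3, s4, s5⟩ := small q hqp (hqK q hqp hqB)
  obtain ⟨t1, t2, t3, t4, t5⟩ := small q₂ hq₂p (hqK q₂ hq₂p hq₂B)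
  have nq : ‖(-(q : ℂ))‖ = q := by
    rw [norm_neg, Complex.norm_real, Real.norm_of_nonneg hqp.le]
  have nq₂ : ‖(-(q₂ : ℂ))‖ = q₂ := by
    rw [norm_neg, Complex.norm_real, Real.norm_of_nonneg hq₂p.le]
  have G1 := hG (-(q : ℂ)) (by rw [nq]; exact hqp) (by rw [nq]; exact s1)
  have G2 := hG (-(q₂ : ℂ)) (by rw [nq₂]; exact hq₂p) (by rw [nq₂]; exact t1)
  have hRN : (100 : ℝ) ≤ R ^ (N : ℤ) := by
    have : R ^ (N : ℤ) = Real.exp K₀ := by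
      rw [hR, zpow_natCast, ← Real.exp_nat_mul, hρd]
      congr 1
      field_simp
    rw [this]
    exact U5.exp5.trans (Real.exp_le_exp.2 (by linarith))
  have hR₂1 : 1 < R₂ := by
    rw [hRR]
    exact one_lt_pow₀ hR1 (by norm_num)
  have hR₂N : (100 : ℝ) ≤ R₂ ^ (N : ℤ) := by
    rw [hRR]
    refine hRN.trans ?_
    apply zpow_le_zpow_left₀ hNZ.le (by linarith)
    exact le_self_pow₀ hR1.le (by norm_num)
  have hR₂3 : R₂ ^ 2 ≤ 3 := by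
    rw [hR₂, ← Real.exp_nat_mul]
    have h1 : ((2 : ℕ) : ℝ) * (2 * ρ) ≤ 1 := by
      push_cast
      linarith
    have h2 := Real.exp_le_exp.2 h1
    have h3 := Real.exp_one_lt_d9
    linarith
  have hR3 : R ^ 2 ≤ 3 := by
    rw [← hRR]
    exact (le_self_pow₀ hR₂1.le (by norm_num)).trans hR₂3
  obtain ⟨a1, a2, a3, a4⟩ := turns_bd hqp s3 (by linarith) hNZ hR1 hRN (TB γ) hTB
  obtain ⟨b1, b2, b3, b4⟩ := turns_bd hq₂p t3 (by linarith) hNZ hR₂1 hR₂N (TB γ) hTB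
  obtain ⟨c1, c2, c3⟩ := dbl_bd (C := C') (by linarith) hNZ hρ (by rw [← hR]; exact hRN) γ hok
  obtain ⟨d1, d2, -⟩ := dbl_bd (C := C') (by linarith) hNZ (by linarith : 0 < 2 * ρ)
    (by rw [← hR₂]; exact hR₂N) γ hok
  rw [← hR] at c1 c2
  rw [← hR₂] at d1 d2
  have hPr : (1 : ℝ) ≤ (nP γ : ℝ) := by exact_mod_cast hP
  have hMr : (nM γ : ℝ) ≤ (nP γ : ℝ) := by exact_mod_cast hM
  rw [← hRR] at a4
  rcases two_points (ρ := ρ) (σ := (sg γ : ℝ)) (C := C')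
    (n := ((TB γ).countP (· < 0) : ℕ)) (s₁ := sp R (TB γ)) (s₂ := sp R₂ (TB γ)) (q := q) (q₂ := q₂)
    (hu := ((TB γ).map (tf 1 C' q R)).sum + (γ.map (df 1 C' R)).sum)
    (hl := ((TB γ).map (tf (-1) C' q₂ R₂)).sum + (γ.map (df (-1) C' R₂)).sum)
    hPr hMr (by linarith) (by positivity) a3 a4 hqp (by rw [hqq]; nlinarith)
    (by rw [hqq]; nlinarith) (by
      have e1 : ρ * ((N : ℝ) * nP γ) ≤ ρ * sg γ := by
        apply mul_le_mul_of_nonneg_left _ hρ.le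
        exact_mod_cast c3
      have e2 : ρ * ((N : ℝ) * nP γ) = K₀ * nP γ := by
        rw [hρd]
        field_simp
      rw [e2, hK₀] at e1
      exact e1) (by linarith) (by linarith) with h | h
  · have h1 := at_point (N := N) hC' hRat G1 hqp s2 s4 hR hρ hNp' hRN hok hγne (Or.inl h)
    rw [hlen] at h1
    exact fin R q hRq hR1.le hR3 hqp hq12 hqB s5 s4 h1
  · have h1 := at_point (N := N) hC' hRat G2 hq₂p t2 t4 hR₂ (by linarith) hNp' hR₂N hok hγne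
      (Or.inr h)
    rw [hlen] at h1
    exact fin R₂ q₂ hRq₂ hR₂1.le hR₂3 hq₂p hq₂12 hq₂B t5 t4 h1

end

/-- the growth of the bracket at infinity, for a word without a block of two positive exponents -/
theorem OLD_bnd {S : ℝ} {β : List (ℤ × ℤ × ℤ)} (h : BG S β) : U5.Bnd S β := by
  intro ε hε hcls u hu hQ
  obtain ⟨M, hM⟩ := U6.thm_Grow.1 (β.map (sc ε)) (by
    intro t ht
    obtain ⟨s, hs, rfl⟩ := List.mem_map.1 ht
    exact hcls s hs)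
  exact h ε hε M (top (β.map (sc ε)) + 2) hM u hu hQ

/-- **Module OLD** -/
theorem thm_Old : St_Old := by
  obtain ⟨N₁, hN₁, h1⟩ := U5.core5
  obtain ⟨N₂, hN₂, h2⟩ := OLD_part2
  refine ⟨N₁ + N₂, by omega, ?_⟩
  intro N hN β hβ hd hcl S hS hBG
  have up : ∀ N' : ℕ, N' ≤ N₁ + N₂ → (N : ℝ) ^ (2 * β.length - 1) ≤
      (N' : ℝ) ^ (2 * β.length - 1) * S →
      (N : ℝ) ^ (2 * β.length - 1) ≤ ((N₁ + N₂ : ℕ) : ℝ) ^ (2 * β.length - 1) * S := by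
    intro N' hN' h
    refine h.trans ?_
    apply mul_le_mul_of_nonneg_right _ hS
    apply pow_le_pow_left₀ (by positivity)
    exact_mod_cast hN'
  have hcase : ((∀ t ∈ β, ¬ (0 < t.1 ∧ 0 < t.2.1)) ∨ ∀ t ∈ β, ¬ (t.1 < 0 ∧ t.2.1 < 0)) ∨
      (∀ t ∈ β, 0 ≤ t.1 * t.2.1) ∧
        ∃ t ∈ β, (0 < t.1 ∧ 0 < t.2.1) ∨ (t.1 < 0 ∧ t.2.1 < 0) := by
    rcases hcl with h | h | h
    · exact Or.inl (Or.inl h)
    · exact Or.inl (Or.inr h)
    · by_cases h3 : ∃ t ∈ β, (0 < t.1 ∧ 0 < t.2.1) ∨ (t.1 < 0 ∧ t.2.1 < 0)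
      · exact Or.inr ⟨h, h3⟩
      · left
        left
        intro t ht h4
        exact h3 ⟨t, ht, Or.inl h4⟩
  rcases hcase with h | ⟨h, h3⟩
  · refine up N₁ (by omega) (h1 N (by omega) β ⟨hβ, ?_, ?_, h, Or.inl hd⟩ S hS (OLD_bnd hBG))
    · obtain ⟨t, ht, h4, -⟩ := hd
      exact ⟨t, ht, h4⟩
    · obtain ⟨t, ht, -, h4⟩ := hd
      exact ⟨t, ht, h4⟩
  · refine up N₂ (by omega) (h2 N (by omega) β ?_ h3 S hS hBG)
    intro t ht
    obtain ⟨a1, a2, a3, a4⟩ := hβ t ht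
    exact ⟨a1, a2, a3, a4, h t ht⟩

end Pool.Agent.FB.Z1
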