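import Pool.Agent.FB.Z1.St

/-!
# FB/Z1, module SC: the scaled form of a word in `σ₁, σ₂`
-/

set_option autoImplicit false

open Matrix LaurentPolynomial Pool.RU Pool.Agent.FB.U5

namespace Pool.Agent.FB.Z1

/-- the change of basis -/
private noncomputable def sc_S (l : ℂ) : Matrix (Fin 2) (Fin 2) ℂ := !![1, l; 1, 0]

/-- the block `T2` as a function of the weights -/
private noncomputable def sc_T (Q : ℂ) (u : ℂ × ℂ) : Matrix (Fin 2) (Fin 2) ℂ :=
  (1 + ((u.2 - 1) / Q) • !![1, Q - 1; 1, Q - 1]) * Matrix.diagonal ![u.1, 1]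

private lemma sc_comm (l : ℂ) (hl : l ≠ 0) (p : ℂ × ℂ) :
    sc_T (-l ^ 2) (1 + l * p.1, 1 + l * p.2) * sc_S l = sc_S l * (Sg l p.2 * Rg l p.1) := by
  obtain ⟨a, b⟩ := p
  obtain ⟨w, rfl⟩ : ∃ w, b = l * w := ⟨b / l, by field_simp⟩
  have h : (1 + l * (l * w) - 1) / (-l ^ 2) = -w := by field_simp; ring
  unfold sc_T sc_S Sg Rg
  simp only [h]
  ext i j
  fin_cases i <;> fin_cases j <;> simp [Matrix.mul_apply, Fin.sum_univ_two] <;> ring

private lemma sc_head (l : ℂ) (x : ℂ) (A : ℂ) (hx : x = 1 + l * A) :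
    sc_T (-l ^ 2) (x, 1) * sc_S l = sc_S l * Rg l A := by
  subst hx
  unfold sc_T sc_S Rg
  simp only [sub_self, zero_div, zero_smul, add_zero]
  ext i j
  fin_cases i <;> fin_cases j <;> simp [Matrix.mul_apply, Fin.sum_univ_two, mul_comm]

private lemma sc_prod (l : ℂ) (hl : l ≠ 0) (L : List (ℂ × ℂ)) :
    (L.map fun p => sc_T (-l ^ 2) (1 + l * p.1, 1 + l * p.2)).prod * sc_S l =
      sc_S l * (L.map fun p => Sg l p.2 * Rg l p.1).prod := by
  induction L with
  | nil => simp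
  | cons s L ih =>
    rw [List.map_cons, List.map_cons, List.prod_cons, List.prod_cons, Matrix.mul_assoc, ih,
      ← Matrix.mul_assoc, sc_comm l hl, Matrix.mul_assoc]

private lemma sc_XX (l A : ℂ) (L : List (ℂ × ℂ)) (hl : l ≠ 0) (s : ℂ × ℂ × ℂ)
    (P : List (ℂ × ℂ × ℂ)) (hs : s.1 * s.2.1 = 1 + l * A)
    (hP : P.map (fun t => (t.1 * t.2.1, t.2.2)) =
      L.map (fun p => (1 + l * p.1, 1 + l * p.2))) :
    XX (-l ^ 2) s P * sc_S l = sc_S l * XS l A L := by
  have h1 : P.map (U5.T2 (-l ^ 2)) = L.map fun p => sc_T (-l ^ 2) (1 + l * p.1, 1 + l * p.2) := by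
    have h2 : P.map (U5.T2 (-l ^ 2)) =
        (P.map (fun t => (t.1 * t.2.1, t.2.2))).map (sc_T (-l ^ 2)) := by
      rw [List.map_map]
      rfl
    rw [h2, hP, List.map_map]
    rfl
  have h3 : U5.T2 (-l ^ 2) (s.1, s.2.1, 1) = sc_T (-l ^ 2) (s.1 * s.2.1, 1) := rfl
  unfold XX XS
  rw [h1, h3, Matrix.mul_assoc, sc_prod l hl, ← Matrix.mul_assoc, sc_head l _ A hs,
    Matrix.mul_assoc]

/-- **Module SC** -/
theorem thm_Sc : St_Sc := by
  intro l A L hl s P hs hP
  have h := sc_XX l A L hl s P hs hP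
  set M := XX (-l ^ 2) s P with hM
  set N := XS l A L with hN
  have h00 : M 0 0 + M 0 1 = N 0 0 + l * N 1 0 := by
    have := congrFun (congrFun h 0) 0
    simpa [sc_S, Matrix.mul_apply, Fin.sum_univ_two] using this
  have h01 : M 0 0 * l = N 0 1 + l * N 1 1 := by
    have := congrFun (congrFun h 0) 1
    simpa [sc_S, Matrix.mul_apply, Fin.sum_univ_two] using this
  have h10 : M 1 0 + M 1 1 = N 0 0 := by
    have := congrFun (congrFun h 1) 0
    simpa [sc_S, Matrix.mul_apply, Fin.sum_univ_two] using this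
  have h11 : M 1 0 * l = N 0 1 := by
    have := congrFun (congrFun h 1) 1
    simpa [sc_S, Matrix.mul_apply, Fin.sum_univ_two] using this
  refine ⟨?_, ?_⟩
  · rw [Matrix.trace_fin_two, Matrix.trace_fin_two]
    apply mul_left_cancel₀ hl
    linear_combination h01 - h11 + l * h10
  · unfold GG
    rw [h00, h10]
    field_simp
    ring

end Pool.Agent.FB.Z1
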