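import Pool.Agent.FB.Z1.KEYQ
import Pool.Agent.FB.Z1.FAC
import Pool.Agent.FB.Z1.SC
import Pool.Agent.FB.Z1.EST2
import Pool.Agent.FB.Z1.D
import Pool.Agent.FB.Z1.LIM
import Pool.Agent.FB.Z1.C
import Pool.Agent.FB.Z1.OLD
import Pool.Agent.FB.Z1.B
import Pool.Agent.FB.Z1.FIN

/-!
# FB/Z1: the theorem
-/

set_option autoImplicit false

namespace Pool.Agent.FB.Z1

/-- **closed 4-braids with long syllables** -/
theorem thm_FourBraids6 : St_FourBraids6 :=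
  thm_Fin thm_KeyQ (thm_D thm_Fac thm_Sc thm_Est2) (thm_C thm_Fac thm_Lim) (thm_E thm_Fac thm_Lim)
    (thm_B thm_Old)

end Pool.Agent.FB.Z1
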