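import Mathlib
import Pool.Agent.FB.Z1.St
import Pool.Agent.FB.TOP
import Pool.Agent.FB.W8.WR
import Pool.Agent.FB.W8.LNK

/-!
# FB/Z1, module KEYQ: what `f = 1` says at a real number `q`

The lemmas are those of `FB/W8/KEY.lean` up to `KEY_q` (they are private there).
-/

set_option autoImplicit false

namespace Pool.Agent.FB.Z1

open LaurentPolynomial Pool.RU Matrix
open Pool.Agent.FB.U5 (wts)

/-! ### the value of `A` -/

/-- the loop value -/
private noncomputable def KQ_dl (A : ℂ) : ℂ := -A ^ 2 - A⁻¹ ^ 2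

/-- the weight -/
private noncomputable def KQ_q0 (A : ℂ) : ℂ := -A⁻¹ ^ 4

/-- `1 + A ^ (-2 ε) δ = q ^ ε` -/
private theorem KQ_one_add {A : ℂ} (hA : A ≠ 0) (ε : ℤˣ) :
    1 + A ^ (-2 * (ε : ℤ)) * KQ_dl A = KQ_q0 A ^ (ε : ℤ) := by
  unfold KQ_dl KQ_q0
  rcases Int.units_eq_one_or ε with rfl | rfl
  · have e1 : A ^ (-2 * ((1 : ℤˣ) : ℤ)) = (A ^ 2)⁻¹ := by
      rw [Units.val_one, mul_one, _root_.zpow_neg]
      norm_cast
    rw [e1, Units.val_one, zpow_one]
    field_simp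
    ring
  · have e1 : A ^ (-2 * ((-1 : ℤˣ) : ℤ)) = A ^ 2 := by
      norm_num
    rw [e1]
    have e2 : (-A⁻¹ ^ 4 : ℂ) ^ ((-1 : ℤˣ) : ℤ) = -A ^ 4 := by
      rw [Units.val_neg, Units.val_one, _root_.zpow_neg_one, inv_pow, inv_neg, inv_inv]
    rw [e2]
    field_simp
    ring

section

variable {R : Type} [Ring R] [Algebra ℂ R]

private theorem KQ_fac_eq {A : ℂ} (hA : A ≠ 0) (e : Fin 3 → R) (i : Fin 3) (ε : ℤˣ) :
    TOP_fac A e (i, ε) = A ^ (ε : ℤ) • (1 + A ^ (-2 * (ε : ℤ)) • e i) := by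
  unfold TOP_fac
  rw [smul_add, smul_smul, ← zpow_add₀ hA]
  congr 3
  ring

/-- the block factor of a syllable -/
private noncomputable def KQ_blk (A : ℂ) (e : Fin 3 → R) (i : Fin 3) (a : ℤ) : R :=
  1 + ((KQ_q0 A ^ a - 1) / KQ_dl A) • e i

private theorem KQ_syllable {A : ℂ} (hA : A ≠ 0) (hδ : KQ_dl A ≠ 0) (e : Fin 3 → R)
    (he : ∀ i, e i * e i = KQ_dl A • e i) (i : Fin 3) (a : ℤ) :
    ((syllable i a).map (TOP_fac A e)).prod = A ^ a • KQ_blk A e i a := by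
  unfold syllable
  set ε : ℤˣ := if 0 ≤ a then 1 else -1 with hε
  have h1 : (ε : ℤ) * (a.natAbs : ℤ) = a := by
    rw [hε]
    split_ifs with h
    · rw [Units.val_one, one_mul]
      omega
    · rw [Units.val_neg, Units.val_one]
      omega
  rw [List.map_replicate, List.prod_replicate, KQ_fac_eq hA, smul_pow, TOP_pow _ _ hδ _ (he i),
    KQ_one_add hA, ← zpow_natCast, ← _root_.zpow_mul, h1, ← zpow_natCast,
    ← _root_.zpow_mul, h1]
  rfl

private theorem KQ_word {A : ℂ} (hA : A ≠ 0) (hδ : KQ_dl A ≠ 0) (e : Fin 3 → R)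
    (he : ∀ i, e i * e i = KQ_dl A • e i) (β : List (ℤ × ℤ × ℤ)) :
    ((word β).map (TOP_fac A e)).prod = A ^ TOP_tot β •
      (β.map fun t => KQ_blk A e 1 t.2.2 * (KQ_blk A e 0 t.1 * KQ_blk A e 2 t.2.1)).prod := by
  induction β with
  | nil => simp [word, TOP_tot]
  | cons t β ih =>
    have h1 : word (t :: β) = syllable 1 t.2.2 ++ (syllable 0 t.1 ++ syllable 2 t.2.1) ++ word β := by
      unfold word
      rw [List.map_cons, List.flatten_cons]
    have h2 : TOP_tot (t :: β) = (t.2.2 + (t.1 + t.2.1)) + TOP_tot β := by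
      unfold TOP_tot
      rw [List.map_cons, List.sum_cons]
    rw [h1, h2, List.map_append, List.map_append, List.map_append, List.prod_append,
      List.prod_append, List.prod_append, ih, KQ_syllable hA hδ e he, KQ_syllable hA hδ e he,
      KQ_syllable hA hδ e he, List.map_cons, List.prod_cons, zpow_add₀ hA,
      zpow_add₀ hA, zpow_add₀ hA]
    simp only [smul_mul_smul_comm]

end

/-! ### the theorem -/

private theorem KQ_val_T (A : ℂˣ) (k : ℤ) : ev A (T k) = (A : ℂ) ^ k := by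
  unfold ev
  rw [LaurentPolynomial.eval₂_T, Units.val_zpow_eq_zpow_val]

private theorem KQ_ev (A : ℂˣ) (f : ℤ[T;T⁻¹]) :
    ev A f = LaurentPolynomial.eval₂ (Int.castRingHom ℂ) A f := rfl

private theorem KQ_bracket (A : ℂˣ) (w : List (Fin 3 × ℤˣ)) :
    KQ_dl A * ev A (trivialClosure.insert w).bracket =
      TOP_S A w fun u => KQ_dl A ^ TOP_L u := by
  rw [← TOP_S_state]
  have h1 : ev A (trivialClosure.insert w).bracket =
      ∑ s : Fin (0 + w.length) → Bool, (∏ x, (A : ℂ) ^ (if s x then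
        ((trivialClosure.insert w).kind x : ℤ) else -((trivialClosure.insert w).kind x : ℤ))) *
          KQ_dl A ^ ((trivialClosure.insert w).curves (ways s) - 1) := by
    unfold Diagram.bracket
    have hd : ev A (-T 2 - T (-2)) = KQ_dl A := by
      rw [KQ_ev, map_sub, map_neg, ← KQ_ev, ← KQ_ev, KQ_val_T, KQ_val_T, _root_.zpow_neg]
      unfold KQ_dl
      rw [inv_pow]
      norm_cast
    rw [KQ_ev, map_sum]
    refine Finset.sum_congr rfl fun s _ => ?_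
    rw [map_mul, map_pow, map_prod, ← KQ_ev, hd]
    congr 1
    refine Finset.prod_congr rfl fun x _ => ?_
    rw [← KQ_ev, KQ_val_T]
  rw [h1, Finset.mul_sum]
  refine Finset.sum_congr rfl fun s _ => ?_
  rw [← TOP_curves w s, mul_left_comm, ← pow_succ',
    Nat.sub_add_cancel (curves_pos (trivialClosure.insert w) (ways s))]

private theorem KQ_EE (A : ℂˣ) (hδ : KQ_dl A ≠ 0) (β : List (ℤ × ℤ × ℤ)) :
    KQ_dl A * ev A (closure β).bracket =
      (A : ℂ) ^ TOP_tot β * U5.EE (KQ_dl A ^ 2) (β.map (wts (KQ_q0 A))) := by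
  have hA : (A : ℂ) ≠ 0 := A.ne_zero
  set δ : ℂ := KQ_dl A with hδd
  have e0 : (fun u => δ ^ TOP_L u) = fun u => (δ ^ 4 - 3 * δ ^ 2 + 1) * TOP_one u +
      ((δ ^ 2 - 1) * TOP_tr (TOP_E3 δ) u + TOP_tr (TOP_E2 δ) u) := by
    funext u
    exact TOP_curves_eq δ hδ u
  -- the three parts
  have p1 : TOP_S A (word β) TOP_one = (A : ℂ) ^ TOP_tot β := by
    have h2 := TOP_S_rep A (fun _ => (0 : ℂ)) (word β) LinearMap.id
    have h3 := KQ_word hA hδ (fun _ => (0 : ℂ)) (fun i => by simp) β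
    have h4 : (fun u : List (Fin 3) => (LinearMap.id : ℂ →ₗ[ℂ] ℂ) (u.map fun _ => (0 : ℂ)).prod) =
        TOP_one := rfl
    rw [h4] at h2
    rw [h2, LinearMap.id_apply, h3]
    have h5 : ∀ t : ℤ × ℤ × ℤ, KQ_blk (A : ℂ) (fun _ => (0 : ℂ)) 1 t.2.2 *
        (KQ_blk (A : ℂ) (fun _ => (0 : ℂ)) 0 t.1 * KQ_blk (A : ℂ) (fun _ => (0 : ℂ)) 2 t.2.1) =
          1 := by
      intro t
      simp [KQ_blk]
    simp only [h5]
    simp
  have p3 : TOP_S A (word β) (TOP_tr (TOP_E3 δ)) = (A : ℂ) ^ TOP_tot β *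
      ((β.map (wts (KQ_q0 A))).map (U5.T3 (δ ^ 2))).prod.trace := by
    have h2 := TOP_S_rep A (TOP_E3 δ) (word β) (Matrix.traceLinearMap (Fin 3) ℂ ℂ)
    have h3 := KQ_word hA hδ (TOP_E3 δ) (TOP_TL3 δ hδ).1 β
    have h4 : (fun u : List (Fin 3) => Matrix.traceLinearMap (Fin 3) ℂ ℂ (u.map (TOP_E3 δ)).prod) =
        TOP_tr (TOP_E3 δ) := rfl
    rw [h4] at h2
    rw [h2, h3, map_smul, smul_eq_mul, Matrix.traceLinearMap_apply, List.map_map]
    congr 4
    funext t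
    unfold U5.T3 KQ_blk
    simp only [Function.comp_apply, wts]
    ext a b
    fin_cases a <;> fin_cases b <;>
      simp [TOP_E3, Matrix.mul_apply, Fin.sum_univ_three, Matrix.diagonal, ← hδd] <;>
      field_simp <;> ring
  have p2 : TOP_S A (word β) (TOP_tr (TOP_E2 δ)) = (A : ℂ) ^ TOP_tot β *
      ((β.map (wts (KQ_q0 A))).map (U5.T2 (δ ^ 2))).prod.trace := by
    have h2 := TOP_S_rep A (TOP_E2 δ) (word β) (Matrix.traceLinearMap (Fin 2) ℂ ℂ)
    have h3 := KQ_word hA hδ (TOP_E2 δ) (TOP_TL2 δ hδ).1 β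
    have h4 : (fun u : List (Fin 3) => Matrix.traceLinearMap (Fin 2) ℂ ℂ (u.map (TOP_E2 δ)).prod) =
        TOP_tr (TOP_E2 δ) := rfl
    rw [h4] at h2
    rw [h2, h3, map_smul, smul_eq_mul, Matrix.traceLinearMap_apply, List.map_map]
    congr 4
    funext t
    unfold U5.T2 KQ_blk
    simp only [Function.comp_apply, wts]
    ext a b
    fin_cases a <;> fin_cases b <;>
      simp [TOP_E2, Matrix.mul_apply, Fin.sum_univ_two, Matrix.diagonal, ← hδd] <;>
      field_simp <;> ring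
  unfold closure
  rw [KQ_bracket, ← hδd, e0, TOP_S_add, TOP_S_mul, TOP_S_add, TOP_S_mul, p1, p2, p3]
  unfold U5.EE
  ring

/-! ### real values -/

private theorem KQ_tot (β : List (ℤ × ℤ × ℤ)) : TOP_tot β = W8.tot β := by
  unfold TOP_tot W8.tot
  congr 1
  refine List.map_congr_left fun t _ => ?_
  ring

/-- what `f = 1` says at a real number `q` -/
private theorem KQ_q (β : List (ℤ × ℤ × ℤ)) (o : Tip 3 (0 + (word β).length) → Bool)
    (hw : (closure β).writhe o = W8.tot β) (hn : (closure β).normalized o = 1) (q : ℝ) (hq : 0 < q)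
    (hq1 : q ≠ 1) :
    ‖U5.EE (((2 - q - 1 / q : ℝ)) : ℂ) (β.map (wts (q : ℂ)))‖ ^ 2 =
      (1 - q) ^ 2 / q * q ^ (-W8.tot β) := by
  set x : ℝ := q ^ (-(1 / 4) : ℝ) with hx
  have hx0 : 0 < x := Real.rpow_pos_of_pos hq _
  have hx4 : x ^ 4 = q⁻¹ := by
    rw [hx, ← Real.rpow_natCast, ← Real.rpow_mul hq.le, ← Real.rpow_neg_one]
    congr 1
    norm_num
  set a : ℂ := Complex.exp (((Real.pi / 4 : ℝ) : ℂ) * Complex.I) * (x : ℂ) with ha
  have hxc : (x : ℂ) ≠ 0 := Complex.ofReal_ne_zero.2 hx0.ne'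
  have ha0 : a ≠ 0 := mul_ne_zero (Complex.exp_ne_zero _) hxc
  have hqc : (q : ℂ) ≠ 0 := Complex.ofReal_ne_zero.2 hq.ne'
  have ha4 : a ^ 4 = -(q : ℂ)⁻¹ := by
    rw [ha, mul_pow, ← Complex.exp_nat_mul]
    have e1 : ((4 : ℕ) : ℂ) * (((Real.pi / 4 : ℝ) : ℂ) * Complex.I) = (Real.pi : ℂ) * Complex.I := by
      push_cast
      ring
    have e2 : ((x : ℂ)) ^ 4 = (q : ℂ)⁻¹ := by
      rw [← Complex.ofReal_pow, hx4, Complex.ofReal_inv]
    rw [e1, Complex.exp_pi_mul_I, e2]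
    ring
  have hna : ‖a‖ = x := by
    rw [ha, norm_mul, Complex.norm_exp_ofReal_mul_I, one_mul, Complex.norm_real, Real.norm_eq_abs,
      abs_of_pos hx0]
  let A : ℂˣ := Units.mk0 a ha0
  have hA : (A : ℂ) = a := rfl
  have hqA : KQ_q0 (A : ℂ) = (q : ℂ) := by
    unfold KQ_q0
    rw [hA, inv_pow, ha4, inv_neg, inv_inv, neg_neg]
  have hd2 : KQ_dl (A : ℂ) ^ 2 = (((2 - q - 1 / q : ℝ)) : ℂ) := by
    unfold KQ_dl
    rw [hA]
    have e1 : (-a ^ 2 - a⁻¹ ^ 2) ^ 2 = a ^ 4 + 2 + (a ^ 4)⁻¹ := by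
      field_simp
      ring
    rw [e1, ha4, inv_neg, inv_inv]
    push_cast
    rw [one_div]
    ring
  have hQ : (2 - q - 1 / q : ℝ) = -((1 - q) ^ 2 / q) := by
    field_simp
    ring
  have hQpos : 0 < (1 - q) ^ 2 / q := by
    have : 1 - q ≠ 0 := sub_ne_zero.2 hq1.symm
    positivity
  have hdl : KQ_dl (A : ℂ) ≠ 0 := by
    intro h
    rw [h, hQ] at hd2
    have : -((1 - q) ^ 2 / q) = 0 := by
      have h3 : (((-((1 - q) ^ 2 / q) : ℝ)) : ℂ) = 0 := by rw [← hd2]; norm_num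
      exact_mod_cast h3
    linarith
  have h2 := congrArg norm (KQ_EE A hdl β)
  rw [norm_mul, norm_mul, norm_zpow, hd2, hqA, hA, hna, KQ_tot] at h2
  have h3 : ‖ev A ((closure β).normalized o)‖ =
      ‖(A : ℂ)‖ ^ (-3 * (closure β).writhe o) * ‖ev A (closure β).bracket‖ := by
    unfold Diagram.normalized
    rw [KQ_ev, map_mul, map_mul, norm_mul, norm_mul, ← KQ_ev, ← KQ_ev, ← KQ_ev, KQ_val_T,
      norm_zpow]
    have h4 : ‖ev A (C (((-1 : ℤˣ) ^ (closure β).writhe o : ℤˣ) : ℤ))‖ = 1 := by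
      rw [KQ_ev, LaurentPolynomial.eval₂_C]
      rcases Int.units_eq_one_or ((-1 : ℤˣ) ^ (closure β).writhe o) with h | h
      · rw [h]
        simp
      · rw [h]
        simp
    rw [h4, one_mul]
  have h5 : ‖ev A ((closure β).normalized o)‖ = 1 := by
    rw [hn, KQ_ev, map_one, norm_one]
  rw [h5, hw, hA, hna] at h3
  -- the bracket
  have h6 : ‖ev A (closure β).bracket‖ = x ^ (3 * W8.tot β) := by
    have e1 : x ^ (3 * W8.tot β) * x ^ (-3 * W8.tot β) = 1 := by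
      rw [← zpow_add₀ hx0.ne']
      have : 3 * W8.tot β + -3 * W8.tot β = 0 := by ring
      rw [this, zpow_zero]
    calc ‖ev A (closure β).bracket‖ =
        (x ^ (3 * W8.tot β) * x ^ (-3 * W8.tot β)) * ‖ev A (closure β).bracket‖ := by rw [e1, one_mul]
      _ = x ^ (3 * W8.tot β) * (x ^ (-3 * W8.tot β) * ‖ev A (closure β).bracket‖) := by ring
      _ = x ^ (3 * W8.tot β) := by rw [← h3, mul_one]
  rw [h6] at h2
  have h7 : ‖U5.EE (((2 - q - 1 / q : ℝ)) : ℂ) (β.map (wts (q : ℂ)))‖ =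
      ‖KQ_dl a‖ * x ^ (2 * W8.tot β) := by
    have hne : x ^ W8.tot β ≠ 0 := zpow_ne_zero _ hx0.ne'
    apply mul_left_cancel₀ hne
    rw [← h2]
    have e1 : x ^ (3 * W8.tot β) = x ^ W8.tot β * x ^ (2 * W8.tot β) := by
      rw [← zpow_add₀ hx0.ne']
      congr 1
      ring
    rw [e1]
    ring
  rw [hA] at hd2
  rw [h7, mul_pow, ← norm_pow, hd2, hQ, Complex.norm_real, Real.norm_eq_abs, abs_neg,
    abs_of_pos hQpos]
  congr 1
  have e1 : (x ^ (2 * W8.tot β)) ^ 2 = (x ^ 4) ^ (W8.tot β) := by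
    rw [← zpow_natCast (x ^ (2 * W8.tot β)) 2, ← _root_.zpow_mul, ← zpow_natCast x 4,
      ← _root_.zpow_mul]
    congr 1
    push_cast
    ring
  rw [e1, hx4, _root_.inv_zpow, _root_.zpow_neg]

/-- **Module KEYQ** -/
theorem thm_KeyQ : St_KeyQ := by
  intro β o ho hn q hq hq1
  exact KQ_q β o (W8.thm_Wr β o ho (W8.LNK_isKnot (closure β) o hn)) hn q hq hq1

end Pool.Agent.FB.Z1
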